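import Pool.Agent.TH647.NR.Sharp

/-!
# Many near relations at the same scale, for a residual set of `t`
-/

set_option autoImplicit false

namespace Pool.Agent.TH647.NR

open Real Set Filter

/-- the height of `(a, b, c)` -/
noncomputable def ht (v : ℤ × ℤ × ℤ) : ℝ := max |(v.1 : ℝ)| (max |(v.2.1 : ℝ)| |(v.2.2 : ℝ)|)

/-- `a + b ξ + c t` -/
noncomputable def val (ξ t : ℝ) (v : ℤ × ℤ × ℤ) : ℝ := v.1 + v.2.1 * ξ + v.2.2 * t

/-- primitive with positive last coordinate -/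
def good (v : ℤ × ℤ × ℤ) : Prop := 0 < v.2.2 ∧ Int.gcd v.1 (Int.gcd v.2.1 v.2.2) = 1

lemma exists_rat_large {ξ : ℝ} (hξ : Irrational ξ) (D : ℕ) :
    ∃ q : ℚ, D ≤ q.den ∧ |ξ - q| < 1 / (q.den : ℝ) ^ 2 := by
  by_contra hcon
  push Not at hcon
  have hinf := Real.infinite_rat_abs_sub_lt_one_div_den_sq_of_irrational hξ
  apply hinf
  obtain ⟨M, hM⟩ := exists_nat_ge ((|ξ| + 1) * D)
  have hfin : (((Finset.Icc (-(M : ℤ)) M) ×ˢ (Finset.range D) : Finset (ℤ × ℕ)) :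
      Set (ℤ × ℕ)).Finite := Finset.finite_toSet _
  refine (hfin.image (fun x => (x.1 : ℚ) / (x.2 : ℚ))).subset ?_
  intro q hq
  have hq' : |ξ - q| < 1 / (q.den : ℝ) ^ 2 := hq
  have hden : q.den < D := by
    by_contra h
    exact absurd (hcon q (not_lt.1 h)) (not_le.2 hq')
  refine ⟨(q.num, q.den), ?_, ?_⟩
  · rw [Finset.mem_coe, Finset.mem_product]
    refine ⟨?_, Finset.mem_range.2 hden⟩
    have hd1 : (1 : ℝ) ≤ q.den := by exact_mod_cast q.pos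
    have h1 : |(q : ℝ)| ≤ |ξ| + 1 := by
      have h2 : 1 / (q.den : ℝ) ^ 2 ≤ 1 := by
        rw [div_le_one (by positivity)]
        nlinarith
      have h3 := abs_sub_abs_le_abs_sub (q : ℝ) ξ
      rw [abs_sub_comm] at h3
      linarith
    have h2 : (q.num : ℝ) = q * q.den := by
      have h3 := Rat.mul_den_eq_num q
      exact_mod_cast h3.symm
    have h3 : |(q.num : ℝ)| ≤ M := by
      rw [h2, abs_mul, abs_of_pos (by linarith : (0 : ℝ) < q.den)]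
      refine le_trans ?_ hM
      have : (q.den : ℝ) ≤ D := by exact_mod_cast hden.le
      gcongr
    rw [Finset.mem_Icc]
    have h4 : |q.num| ≤ (M : ℤ) := by exact_mod_cast h3
    exact abs_le.1 h4
  · exact Rat.num_div_den q

lemma family (ξ C : ℝ) (x y p a₁ b₁ a₂ b₂ z : ℤ) (hx : 0 < x) (hxy : IsCoprime x y) (hp : 0 < p)
    (h1 : b₁ * (p + 1) - p * b₂ = x) (h2 : p * a₂ - a₁ * (p + 1) = y)
    (hz : z = a₁ * b₂ - a₂ * b₁) (hC : 2 ≤ C) (ha₁ : |(a₁ : ℝ)| ≤ C * p) (hb₁ : |(b₁ : ℝ)| ≤ C * p)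
    (ha₂ : |(a₂ : ℝ)| ≤ C * p) (hb₂ : |(b₂ : ℝ)| ≤ C * p)
    (hξ : |ξ - y / x| < 1 / (x : ℝ) ^ 2) (k K : ℕ) (hk : 1 ≤ k) (hkK : k ≤ K) :
    good (a₁ + k * a₂, b₁ + k * b₂, p + k * (p + 1)) ∧
    ht (a₁ + k * a₂, b₁ + k * b₂, p + k * (p + 1)) ≤ 2 * K * C * p ∧
    |val ξ (z / x) (a₁ + k * a₂, b₁ + k * b₂, p + k * (p + 1))| ≤ 2 * K * C * p / (x : ℝ) ^ 2 := by
  have hxR : (0 : ℝ) < x := by exact_mod_cast hx
  have hpR : (0 : ℝ) < p := by exact_mod_cast hp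
  have hp1 : (1 : ℝ) ≤ p := by exact_mod_cast hp
  have hk1 : (1 : ℝ) ≤ k := by exact_mod_cast hk
  have hkK' : (k : ℝ) ≤ K := by exact_mod_cast hkK
  have hbd : ∀ u v : ℤ, |(u : ℝ)| ≤ C * p → |(v : ℝ)| ≤ C * p →
      |((u + k * v : ℤ) : ℝ)| ≤ 2 * K * C * p := by
    intro u v hu hv
    push_cast
    calc |(u : ℝ) + k * v| ≤ |(u : ℝ)| + |(k : ℝ) * v| := abs_add_le _ _
      _ ≤ C * p + k * (C * p) := by
          rw [abs_mul, abs_of_nonneg (by linarith : (0 : ℝ) ≤ k)]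
          gcongr
      _ ≤ K * (C * p) + K * (C * p) := by
          have : 0 < C * p := by positivity
          nlinarith
      _ = _ := by ring
  refine ⟨⟨?_, ?_⟩, ?_, ?_⟩
  · show 0 < p + k * (p + 1)
    positivity
  · show Int.gcd (a₁ + k * a₂) (Int.gcd (b₁ + k * b₂) (p + k * (p + 1))) = 1
    set g := Int.gcd (a₁ + k * a₂) (Int.gcd (b₁ + k * b₂) (p + k * (p + 1))) with hg
    have d1 : (g : ℤ) ∣ a₁ + k * a₂ := Int.gcd_dvd_left ..
    have d0 : (g : ℤ) ∣ (Int.gcd (b₁ + k * b₂) (p + k * (p + 1)) : ℤ) := Int.gcd_dvd_right ..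
    have d2 : (g : ℤ) ∣ b₁ + k * b₂ := d0.trans (Int.gcd_dvd_left ..)
    have d3 : (g : ℤ) ∣ p + k * (p + 1) := d0.trans (Int.gcd_dvd_right ..)
    have dx : (g : ℤ) ∣ x := by
      have : x = (b₁ + k * b₂) * (p + 1) - (p + k * (p + 1)) * b₂ := by rw [← h1]; ring
      rw [this]
      exact dvd_sub (Dvd.dvd.mul_right d2 _) (Dvd.dvd.mul_right d3 _)
    have dy : (g : ℤ) ∣ y := by
      have : y = (p + k * (p + 1)) * a₂ - (a₁ + k * a₂) * (p + 1) := by rw [← h2]; ring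
      rw [this]
      exact dvd_sub (Dvd.dvd.mul_right d3 _) (Dvd.dvd.mul_right d1 _)
    have hu := hxy.isUnit_of_dvd' dx dy
    exact Int.ofNat_isUnit.1 hu |> Nat.isUnit_iff.1
  · refine max_le (hbd _ _ ha₁ ha₂) (max_le (hbd _ _ hb₁ hb₂) ?_)
    have e : (p + k * (p + 1) : ℤ) = p + k * (p + 1) := rfl
    refine hbd p (p + 1) ?_ ?_
    · rw [abs_of_pos hpR]; nlinarith
    · push_cast
      rw [abs_of_pos (by linarith)]
      nlinarith
  · have e : val ξ (z / x) (a₁ + k * a₂, b₁ + k * b₂, p + k * (p + 1)) =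
        ((b₁ + k * b₂ : ℤ) : ℝ) * (ξ - y / x) := by
      have hxr : (x : ℝ) = b₁ * (p + 1) - p * b₂ := by exact_mod_cast h1.symm
      have hyr : (y : ℝ) = p * a₂ - a₁ * (p + 1) := by exact_mod_cast h2.symm
      have hzr : (z : ℝ) = a₁ * b₂ - a₂ * b₁ := by exact_mod_cast hz
      have h3 : ((a₁ + k * a₂ : ℝ)) * x + (b₁ + k * b₂) * y + (p + k * (p + 1)) * z = 0 := by
        rw [hxr, hyr, hzr]; ring
      have h4 : (a₁ + k * a₂ : ℝ) + (b₁ + k * b₂) * (y / x) + (p + k * (p + 1)) * (z / x) = 0 := by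
        field_simp
        linarith
      unfold val
      push_cast
      linear_combination h4
    rw [e, abs_mul, div_eq_mul_one_div (2 * (K : ℝ) * C * p)]
    exact mul_le_mul (hbd _ _ hb₁ hb₂) hξ.le (abs_nonneg _) (by positivity)

lemma dense_core {ξ : ℝ} (hξ : Irrational ξ) (w : ℝ) (hw0 : 0 ≤ w) (hw : w < 3) :
    ∃ δ : ℝ, 0 < δ ∧ ∀ τ η N : ℝ, 0 < η → ∃ t₀ X : ℝ, |t₀ - τ| < η ∧ N ≤ X ∧
      ∃ F : Finset (ℤ × ℤ × ℤ), X ^ δ ≤ F.card ∧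
        ∀ v ∈ F, good v ∧ ht v ≤ X ∧ |val ξ t₀ v| < ht v ^ (-w) := by
  obtain ⟨κ, hκ⟩ : ∃ κ : ℝ, κ = (3 - w) / (2 * (1 + w)) := ⟨_, rfl⟩
  have hκ0 : 0 < κ := by rw [hκ]; apply div_pos <;> linarith
  have hκw : κ * (1 + w) = (3 - w) / 2 := by
    rw [hκ]; field_simp
  obtain ⟨δ, hδ⟩ : ∃ δ : ℝ, δ = κ / (2 * (1 + κ)) := ⟨_, rfl⟩
  have hδ0 : 0 < δ := by rw [hδ]; positivity
  have hδκ : (1 + κ) * δ = κ / 2 := by
    rw [hδ]; field_simp
  refine ⟨δ, hδ0, fun τ η N hη => ?_⟩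
  obtain ⟨B, hB1, hB⟩ := exists_bound hξ (η / 2) (|τ| + |ξ| + 2) (by positivity) (by positivity)
  obtain ⟨C, hC⟩ : ∃ C : ℝ, C = 2 * B + |ξ| + 4 := ⟨_, rfl⟩
  have hC2 : 2 ≤ C := by rw [hC]; linarith [abs_nonneg ξ]
  have hC0 : 0 < C := by linarith
  -- conditions on `P`
  have t1 : Tendsto (fun P : ℝ => 32 * C * (2 * C) ^ w * P ^ (-((3 - w) / 2))) atTop (nhds 0) := by
    have := (tendsto_rpow_neg_atTop (show 0 < (3 - w) / 2 by linarith)).const_mul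
      (32 * C * (2 * C) ^ w)
    rwa [mul_zero] at this
  have t2 := tendsto_rpow_atTop (show 0 < κ / 2 by linarith)
  have t3 := tendsto_rpow_atTop hκ0
  have e1 := t1.eventually (gt_mem_nhds one_pos)
  have e2 := t2.eventually_ge_atTop (2 * (2 * C) ^ δ)
  have e3 := t3.eventually_ge_atTop 2
  obtain ⟨P₀, hP₀⟩ := eventually_atTop.1 ((e1.and e2).and e3)
  -- choose the denominator
  obtain ⟨D, hD⟩ := exists_nat_ge ((max P₀ (max N 1)) ^ 2 + 2 * B / η + 1)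
  obtain ⟨q, hqD, hq⟩ := exists_rat_large hξ D
  obtain ⟨x, hx⟩ : ∃ x : ℤ, x = (q.den : ℤ) := ⟨_, rfl⟩
  obtain ⟨y, hy⟩ : ∃ y : ℤ, y = q.num := ⟨_, rfl⟩
  have hx0 : 0 < x := by rw [hx]; exact_mod_cast q.pos
  have hxR0 : (0 : ℝ) < x := by exact_mod_cast hx0
  have hxD : (D : ℝ) ≤ x := by rw [hx]; exact_mod_cast hqD
  have hxy : IsCoprime x y := by
    rw [hx, hy]
    have := q.reduced
    exact (Int.isCoprime_iff_gcd_eq_one.2 (by
      rw [Int.gcd_comm]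
      simpa [Int.gcd] using this))
  have hxiq : |ξ - y / x| < 1 / (x : ℝ) ^ 2 := by
    have h1 : (q : ℝ) = (y : ℝ) / x := by
      rw [hx, hy]
      have := Rat.cast_def (K := ℝ) q
      simpa using this
    rw [← h1, hx]
    simpa using hq
  have hmax : 0 ≤ (max P₀ (max N 1)) ^ 2 := sq_nonneg _
  have hBη : 0 ≤ 2 * B / η := by positivity
  have hx1 : 1 ≤ (x : ℝ) := by linarith
  -- `p`
  obtain ⟨p, hp⟩ : ∃ p : ℤ, p = ((Nat.sqrt q.den : ℕ) : ℤ) + 1 := ⟨_, rfl⟩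
  have hp0 : 0 < p := by rw [hp]; positivity
  have hpR0 : (0 : ℝ) < p := by exact_mod_cast hp0
  have hp1 : (1 : ℝ) ≤ p := by exact_mod_cast hp0
  have hxp : x ≤ p ^ 2 := by
    rw [hx, hp]
    have := Nat.lt_succ_sqrt q.den
    have h1 : q.den ≤ (Nat.sqrt q.den + 1) ^ 2 := by
      rw [sq]; exact this.le
    exact_mod_cast h1
  have hpx : (p : ℝ) ^ 2 ≤ 4 * x := by
    have h1 : Nat.sqrt q.den * Nat.sqrt q.den ≤ q.den := Nat.sqrt_le q.den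
    have h2 : 1 ≤ Nat.sqrt q.den := by
      have h0 := q.pos
      rw [Nat.le_sqrt]; omega
    have h3 : (Nat.sqrt q.den + 1) ^ 2 ≤ 4 * q.den := by nlinarith
    rw [hx, hp]
    push_cast
    exact_mod_cast h3
  have hPge : max P₀ (max N 1) ≤ (p : ℝ) := by
    have h1 : (max P₀ (max N 1)) ^ 2 ≤ (p : ℝ) ^ 2 := by
      have : (x : ℝ) ≤ (p : ℝ) ^ 2 := by exact_mod_cast hxp
      linarith
    exact le_of_sq_le_sq h1 hpR0.le
  have hPP : P₀ ≤ (p : ℝ) := (le_max_left _ _).trans hPge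
  have hPN : N ≤ (p : ℝ) := ((le_max_left _ _).trans (le_max_right _ _)).trans hPge
  obtain ⟨⟨c1, c2⟩, c3⟩ := hP₀ p hPP
  have hBx : B / (x : ℝ) ^ 2 ≤ η / 2 := by
    rw [div_le_iff₀ (by positivity)]
    have h1 : 2 * B / η ≤ x := by linarith
    rw [div_le_iff₀ hη] at h1
    nlinarith [mul_pos hη hxR0]
  obtain ⟨a₁, b₁, a₂, b₂, z, q1, q2, q3, q4, ha₁, hb₁, ha₂, hb₂⟩ :=
    construct ξ τ (η / 2) B hB1 hB x y p hx0 hp0 hxp hxiq hBx
  rw [← hC] at ha₁ hb₁ ha₂ hb₂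
  -- the number of vectors
  obtain ⟨K, hK⟩ : ∃ K : ℕ, K = ⌊(p : ℝ) ^ κ⌋₊ := ⟨_, rfl⟩
  have hKle : (K : ℝ) ≤ (p : ℝ) ^ κ := by rw [hK]; exact Nat.floor_le (by positivity)
  have hKge : (p : ℝ) ^ κ / 2 ≤ K := by
    have := Nat.lt_floor_add_one ((p : ℝ) ^ κ)
    rw [← hK] at this
    linarith
  have hK1 : (1 : ℝ) ≤ K := by linarith
  have hfam := fun (k : ℕ) (hk : 1 ≤ k) (hkK : k ≤ K) =>
    family ξ C x y p a₁ b₁ a₂ b₂ z hx0 hxy hp0 q1 q2 q3 hC2 ha₁ hb₁ ha₂ hb₂ hxiq k K hk hkK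
  have hX0 : 0 < 2 * K * C * (p : ℝ) := by positivity
  refine ⟨z / x, 2 * K * C * p, ?_, ?_, (Finset.Icc 1 K).image (fun k : ℕ =>
    ((a₁ + k * a₂, b₁ + k * b₂, p + k * (p + 1)) : ℤ × ℤ × ℤ)), ?_, ?_⟩
  · linarith
  · have : 1 ≤ 2 * K * C := by nlinarith
    nlinarith
  · rw [Finset.card_image_of_injOn, Nat.card_Icc, Nat.add_sub_cancel]
    · have h1 : (2 * K * C * (p : ℝ)) ≤ 2 * C * (p : ℝ) ^ (1 + κ) := by
        rw [Real.rpow_add hpR0, Real.rpow_one]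
        calc 2 * K * C * (p : ℝ) ≤ 2 * (p : ℝ) ^ κ * C * p := by gcongr
          _ = _ := by ring
      calc (2 * K * C * (p : ℝ)) ^ δ ≤ (2 * C * (p : ℝ) ^ (1 + κ)) ^ δ :=
            Real.rpow_le_rpow hX0.le h1 hδ0.le
        _ = (2 * C) ^ δ * (p : ℝ) ^ (κ / 2) := by
            rw [Real.mul_rpow (by positivity) (by positivity), ← Real.rpow_mul hpR0.le, hδκ]
        _ ≤ (p : ℝ) ^ (κ / 2) / 2 * (p : ℝ) ^ (κ / 2) := by
            gcongr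
            linarith
        _ = (p : ℝ) ^ κ / 2 := by
            rw [div_mul_eq_mul_div, ← Real.rpow_add hpR0]
            congr 2
            ring
        _ ≤ K := hKge
    · intro k _ k' _ hkk
      simp only [Prod.mk.injEq] at hkk
      have h3 := hkk.2.2
      have h4 : (k : ℤ) * (p + 1) = k' * (p + 1) := by linarith
      have h5 := mul_right_cancel₀ (by positivity) h4
      exact_mod_cast h5
  · intro v hv
    rw [Finset.mem_image] at hv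
    obtain ⟨k, hk, rfl⟩ := hv
    rw [Finset.mem_Icc] at hk
    obtain ⟨f1, f2, f3⟩ := hfam k hk.1 hk.2
    refine ⟨f1, f2, lt_of_le_of_lt f3 ?_⟩
    have hv0 : 0 < ht (a₁ + k * a₂, b₁ + k * b₂, p + k * (p + 1)) := by
      have h1 : (0 : ℝ) < ((p + k * (p + 1) : ℤ) : ℝ) := by exact_mod_cast f1.1
      exact lt_of_lt_of_le (lt_of_lt_of_le h1 (le_abs_self _))
        ((le_max_right _ _).trans (le_max_right _ _))
    have g1 : (2 * K * C * (p : ℝ)) ^ (-w) ≤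
        ht (a₁ + k * a₂, b₁ + k * b₂, p + k * (p + 1)) ^ (-w) :=
      Real.rpow_le_rpow_of_nonpos hv0 f2 (by linarith)
    refine lt_of_lt_of_le ?_ g1
    -- 2KCp/x² < (2KCp)^(-w)
    have g2 : (p : ℝ) ^ 4 ≤ 16 * (x : ℝ) ^ 2 := by nlinarith [sq_nonneg (p : ℝ)]
    have g3 : 2 * K * C * p / (x : ℝ) ^ 2 ≤ 32 * K * C * (p : ℝ) ^ (-(3 : ℝ)) := by
      rw [div_le_iff₀ (by positivity)]
      have g4 : (p : ℝ) ^ (-(3 : ℝ)) * (p : ℝ) ^ 4 = p := by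
        rw [← Real.rpow_natCast (p : ℝ) 4, ← Real.rpow_add hpR0]
        norm_num
      have g5 : 2 * K * C * (p : ℝ) = 2 * K * C * ((p : ℝ) ^ (-(3 : ℝ)) * (p : ℝ) ^ 4) := by
        rw [g4]
      rw [g5]
      calc 2 * K * C * ((p : ℝ) ^ (-(3 : ℝ)) * (p : ℝ) ^ 4) ≤
          2 * K * C * ((p : ℝ) ^ (-(3 : ℝ)) * (16 * (x : ℝ) ^ 2)) := by gcongr
        _ = _ := by ring
    refine lt_of_le_of_lt g3 ?_
    rw [Real.rpow_neg hX0.le, ← one_div, lt_div_iff₀ (by positivity)]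
    have g6 : (2 * K * C * (p : ℝ)) ^ w ≤ (2 * C) ^ w * ((p : ℝ) ^ κ) ^ w * (p : ℝ) ^ w := by
      rw [← Real.mul_rpow (by positivity) (by positivity),
        ← Real.mul_rpow (by positivity) (by positivity)]
      apply Real.rpow_le_rpow hX0.le _ hw0
      calc 2 * K * C * (p : ℝ) ≤ 2 * (p : ℝ) ^ κ * C * p := by gcongr
        _ = _ := by ring
    calc 32 * K * C * (p : ℝ) ^ (-(3 : ℝ)) * (2 * K * C * (p : ℝ)) ^ w
        ≤ 32 * (p : ℝ) ^ κ * C * (p : ℝ) ^ (-(3 : ℝ)) *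
          ((2 * C) ^ w * ((p : ℝ) ^ κ) ^ w * (p : ℝ) ^ w) := by gcongr
      _ = 32 * C * (2 * C) ^ w * (p : ℝ) ^ (-((3 - w) / 2)) := by
          have g7 : (p : ℝ) ^ (-((3 - w) / 2)) =
              (p : ℝ) ^ κ * (p : ℝ) ^ (-(3 : ℝ)) * ((p : ℝ) ^ κ) ^ w * (p : ℝ) ^ w := by
            rw [← Real.rpow_mul hpR0.le, ← Real.rpow_add hpR0, ← Real.rpow_add hpR0,
              ← Real.rpow_add hpR0]
            congr 1
            nlinarith [hκw]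
          rw [g7]
          ring
      _ < 1 := c1

/-- **Many near relations** for a residual set of `t`. -/
theorem many {ξ : ℝ} (hξ : Irrational ξ) (w : ℝ) (hw : w < 3) :
    ∃ δ : ℝ, 0 < δ ∧ ∀ᶠ t in residual ℝ, ∃ᶠ X : ℝ in atTop,
      ∃ F : Finset (ℤ × ℤ × ℤ), X ^ δ ≤ F.card ∧
        ∀ v ∈ F, good v ∧ ht v ≤ X ∧ |val ξ t v| ≤ ht v ^ (-w) := by
  obtain ⟨δ, hδ, h⟩ := dense_core hξ (max w 0) (le_max_right _ _) (max_lt hw (by norm_num))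
  refine ⟨δ, hδ, ?_⟩
  have hmain : ∀ n : ℕ, ∀ᶠ t in residual ℝ, ∃ X : ℝ, (n : ℝ) ≤ X ∧
      ∃ F : Finset (ℤ × ℤ × ℤ), X ^ δ ≤ F.card ∧
        ∀ v ∈ F, good v ∧ ht v ≤ X ∧ |val ξ t v| < ht v ^ (-(max w 0)) := by
    intro n
    have hset : {t : ℝ | ∃ X : ℝ, (n : ℝ) ≤ X ∧ ∃ F : Finset (ℤ × ℤ × ℤ), X ^ δ ≤ F.card ∧
        ∀ v ∈ F, good v ∧ ht v ≤ X ∧ |val ξ t v| < ht v ^ (-(max w 0))} =
        ⋃ (X : ℝ) (_ : (n : ℝ) ≤ X) (F : Finset (ℤ × ℤ × ℤ)) (_ : X ^ δ ≤ F.card)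
          (_ : ∀ v ∈ F, good v ∧ ht v ≤ X),
          ⋂ v ∈ F, {t : ℝ | |val ξ t v| < ht v ^ (-(max w 0))} := by
      ext t
      simp only [Set.mem_ofPred_eq, Set.mem_iUnion, Set.mem_iInter, exists_prop]
      constructor
      · rintro ⟨X, hX, F, hF, hv⟩
        exact ⟨X, hX, F, hF, fun v hvF => ⟨(hv v hvF).1, (hv v hvF).2.1⟩, fun v hvF => (hv v hvF).2.2⟩
      · rintro ⟨X, hX, F, hF, hv, hv2⟩
        exact ⟨X, hX, F, hF, fun v hvF => ⟨(hv v hvF).1, (hv v hvF).2, hv2 v hvF⟩⟩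
    apply residual_of_dense_open
    · show IsOpen {t : ℝ | _}
      rw [hset]
      refine isOpen_iUnion fun X => isOpen_iUnion fun _ => isOpen_iUnion fun F =>
        isOpen_iUnion fun _ => isOpen_iUnion fun _ => isOpen_biInter_finset fun v _ => ?_
      refine isOpen_lt ?_ continuous_const
      unfold val
      fun_prop
    · rw [Metric.dense_iff]
      intro τ η hη
      obtain ⟨t₀, X, ht, hX, F, hF, hv⟩ := h τ η n hη
      exact ⟨t₀, by rw [Metric.mem_ball, Real.dist_eq]; exact ht, X, hX, F, hF, hv⟩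
  have hall := eventually_countable_forall.2 hmain
  filter_upwards [hall] with t htt
  rw [frequently_atTop]
  intro a
  obtain ⟨n, hn⟩ := exists_nat_ge a
  obtain ⟨X, hX, F, hF, hv⟩ := htt n
  refine ⟨X, hn.trans hX, F, hF, fun v hvF => ⟨(hv v hvF).1, (hv v hvF).2.1, ?_⟩⟩
  refine (hv v hvF).2.2.le.trans ?_
  have hg := (hv v hvF).1.1
  have h1 : (1 : ℝ) ≤ ht v := by
    have h2 : (1 : ℝ) ≤ ((v.2.2 : ℤ) : ℝ) := by exact_mod_cast hg
    exact (h2.trans (le_abs_self _)).trans ((le_max_right _ _).trans (le_max_right _ _))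
  exact Real.rpow_le_rpow_of_exponent_le h1 (neg_le_neg (le_max_left _ _))

end Pool.Agent.TH647.NR
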