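import Mathlib

/-!
# Resultants: non-vanishing, size of values, degree and coefficients
-/

set_option autoImplicit false

namespace Pool.Agent.TH647.NR

open Polynomial Matrix Finset

/-- the resultant of two irreducible polynomials which are not associated does not vanish -/
lemma resultant_ne_zero_of_irreducible (P Q : ℤ[X][X]) (hP : Irreducible P) (hQ : Irreducible Q)
    (hP0 : 0 < P.natDegree) (hQ0 : 0 < Q.natDegree) (hne : ¬ Associated P Q) :
    resultant P Q ≠ 0 := by
  classical
  set ι := algebraMap ℤ[X] (FractionRing ℤ[X]) with hι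
  have hinj : Function.Injective ι := IsFractionRing.injective _ _
  have hPp : P.IsPrimitive := hP.isPrimitive hP0.ne'
  have hQp : Q.IsPrimitive := hQ.isPrimitive hQ0.ne'
  have hP' : Irreducible (P.map ι) :=
    (IsPrimitive.irreducible_iff_irreducible_map_fraction_map (K := FractionRing ℤ[X]) hPp).1 hP
  have hcop : IsCoprime (P.map ι) (Q.map ι) := by
    refine (hP'.coprime_iff_not_dvd).2 fun hdvd => hne ?_
    have h1 : P ∣ Q := hPp.dvd_of_fraction_map_dvd_fraction_map (K := FractionRing ℤ[X]) hdvd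
    exact (hP.dvd_irreducible_iff_associated hQ).1 h1
  have h2 := resultant_ne_zero _ _ hcop
  rw [natDegree_map_eq_of_injective hinj, natDegree_map_eq_of_injective hinj, resultant_map_map] at h2
  intro h0
  exact h2 (by rw [h0, map_zero])

/-- size of the resultant in terms of the values -/
lemma norm_resultant_le (f g : ℂ[X]) (m n : ℕ) (hf : f.natDegree ≤ m) (hg : g.natDegree ≤ n)
    (hmn : 0 < m + n) (B T ε : ℝ) (hB : 1 ≤ B) (hfB : ∀ i, ‖f.coeff i‖ ≤ B)
    (hgB : ∀ i, ‖g.coeff i‖ ≤ B) (t : ℂ) (hT : 1 ≤ T) (ht : ‖t‖ ≤ T) (hfε : ‖f.eval t‖ ≤ ε)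
    (hgε : ‖g.eval t‖ ≤ ε) :
    ‖resultant f g m n‖ ≤ (m + n) * (T ^ (m + n) * ε) * ((m + n).factorial * B ^ (m + n)) := by
  classical
  set M := sylvester f g m n with hM
  set v : Fin (m + n) → ℂ := fun i => t ^ (i : ℕ) with hv
  have hε : 0 ≤ ε := (norm_nonneg _).trans hfε
  have hT0 : 0 ≤ T := by linarith
  have hMB : ∀ i j, ‖M i j‖ ≤ B := by
    intro i j
    rw [hM, sylvester, Matrix.of_apply]
    refine Fin.addCases (fun j₁ => ?_) (fun j₁ => ?_) j
    · rw [Fin.addCases_left]
      split_ifs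
      · exact hgB _
      · rw [norm_zero]; linarith
    · rw [Fin.addCases_right]
      split_ifs
      · exact hfB _
      · rw [norm_zero]; linarith
  -- the row vector
  have shift : ∀ (q : ℂ[X]) (k l : ℕ), q.natDegree ≤ l → k + l < m + n →
      ∑ i : Fin (m + n), t ^ (i : ℕ) * (if (i : ℕ) ∈ Set.Icc k (k + l) then q.coeff (i - k) else 0) =
        t ^ k * q.eval t := by
    intro q k l hq hkl
    rw [Fin.sum_univ_eq_sum_range (fun i => t ^ i * (if i ∈ Set.Icc k (k + l) then q.coeff (i - k)
      else 0)) (m + n)]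
    have h1 : ∑ i ∈ Finset.range (m + n), t ^ i * (if i ∈ Set.Icc k (k + l) then q.coeff (i - k)
        else 0) = ∑ i ∈ Finset.Ico k (k + l + 1), t ^ i * q.coeff (i - k) := by
      rw [← Finset.sum_subset (s₁ := Finset.Ico k (k + l + 1))]
      · refine Finset.sum_congr rfl fun i hi => ?_
        rw [Finset.mem_Ico] at hi
        rw [if_pos ⟨hi.1, by omega⟩]
      · intro i hi
        rw [Finset.mem_Ico] at hi
        rw [Finset.mem_range]
        omega
      · intro i _ hi
        rw [Finset.mem_Ico] at hi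
        rw [if_neg, mul_zero]
        rintro ⟨h1, h2⟩
        omega
    rw [h1, Finset.sum_Ico_eq_sum_range, eval_eq_sum_range' (show q.natDegree < l + 1 by omega),
      Finset.mul_sum]
    rw [show k + l + 1 - k = l + 1 by omega]
    refine Finset.sum_congr rfl fun i _ => ?_
    rw [show k + i - k = i by omega, pow_add]
    ring
  have hu : ∀ j, ‖(v ᵥ* M) j‖ ≤ T ^ (m + n) * ε := by
    intro j
    have h0 : (v ᵥ* M) j = ∑ i : Fin (m + n), t ^ (i : ℕ) * M i j := rfl
    have key : ∀ (k : ℕ) (z : ℂ), k ≤ m + n → ‖z‖ ≤ ε → ‖t ^ k * z‖ ≤ T ^ (m + n) * ε := by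
      intro k z hk hz
      rw [norm_mul, norm_pow]
      have h1 : ‖t‖ ^ k ≤ T ^ (m + n) :=
        (pow_le_pow_left₀ (norm_nonneg _) ht k).trans (pow_le_pow_right₀ hT hk)
      gcongr
    rw [h0]
    refine Fin.addCases (fun j₁ => ?_) (fun j₁ => ?_) j
    · have h1 : ∑ i : Fin (m + n), t ^ (i : ℕ) * M i (Fin.castAdd n j₁) = t ^ (j₁ : ℕ) * g.eval t := by
        rw [← shift g j₁ n hg (by have := j₁.2; omega)]
        refine Finset.sum_congr rfl fun i _ => ?_
        rw [hM, sylvester, Matrix.of_apply, Fin.addCases_left]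
      rw [h1]
      exact key _ _ (by have := j₁.2; omega) hgε
    · have h1 : ∑ i : Fin (m + n), t ^ (i : ℕ) * M i (Fin.natAdd m j₁) = t ^ (j₁ : ℕ) * f.eval t := by
        rw [← shift f j₁ m hf (by have := j₁.2; omega)]
        refine Finset.sum_congr rfl fun i _ => ?_
        rw [hM, sylvester, Matrix.of_apply, Fin.addCases_right]
      rw [h1]
      exact key _ _ (by have := j₁.2; omega) hfε
  -- Cramer
  have hadj : ∀ i j, ‖adjugate M i j‖ ≤ (m + n).factorial * B ^ (m + n) := by
    intro i j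
    rw [adjugate_apply]
    have h1 := Matrix.det_le (A := M.updateRow j (Pi.single i 1))
      (abv := (NormedField.toAbsoluteValue ℂ)) (x := B) (fun a b => by
        show ‖M.updateRow j (Pi.single i 1) a b‖ ≤ B
        by_cases ha : a = j
        · subst ha
          rw [Matrix.updateRow_self]
          by_cases hb : b = i
          · subst hb; simpa using hB
          · rw [Pi.single_eq_of_ne hb, norm_zero]; linarith
        · rw [Matrix.updateRow_ne ha]
          exact hMB a b)
    rw [Fintype.card_fin, nsmul_eq_mul] at h1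
    exact h1
  have hcr : (v ᵥ* M) ᵥ* adjugate M = M.det • v := by
    rw [Matrix.vecMul_vecMul, mul_adjugate, Matrix.vecMul_smul, Matrix.vecMul_one]
  have h0 := congrFun hcr ⟨0, hmn⟩
  have h1 : (M.det • v) ⟨0, hmn⟩ = resultant f g m n := by
    rw [Pi.smul_apply, smul_eq_mul, hv]
    simp [resultant, hM]
  rw [h1] at h0
  rw [← h0]
  have h2 : ((v ᵥ* M) ᵥ* adjugate M) ⟨0, hmn⟩ = ∑ j, (v ᵥ* M) j * adjugate M j ⟨0, hmn⟩ := rfl
  rw [h2]
  calc ‖∑ j, (v ᵥ* M) j * adjugate M j ⟨0, hmn⟩‖ ≤ ∑ j, ‖(v ᵥ* M) j * adjugate M j ⟨0, hmn⟩‖ :=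
        norm_sum_le _ _
    _ ≤ ∑ _j : Fin (m + n), (T ^ (m + n) * ε) * ((m + n).factorial * B ^ (m + n)) := by
        refine Finset.sum_le_sum fun j _ => ?_
        rw [norm_mul]
        have := hu j
        have := hadj j ⟨0, hmn⟩
        gcongr
    _ = _ := by
        rw [Finset.sum_const, Finset.card_univ, Fintype.card_fin, nsmul_eq_mul]
        push_cast
        ring

/-- coefficients of products -/
lemma coeff_prod_le {ι : Type*} (s : Finset ι) (p : ι → ℤ[X]) (D : ℕ) (H : ℤ) (hH : 0 ≤ H)
    (hD : ∀ i ∈ s, (p i).natDegree ≤ D) (hp : ∀ i ∈ s, ∀ k, |(p i).coeff k| ≤ H) (k : ℕ) :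
    |(∏ i ∈ s, p i).coeff k| ≤ ((D + 1) * H) ^ s.card := by
  classical
  induction s using Finset.induction_on generalizing k with
  | empty =>
    rw [Finset.prod_empty, Finset.card_empty, pow_zero, coeff_one]
    split_ifs <;> simp
  | insert a s ha ih =>
    rw [Finset.prod_insert ha, Finset.card_insert_of_notMem ha, pow_succ']
    have ih' := ih (fun i hi => hD i (Finset.mem_insert_of_mem hi))
      (fun i hi => hp i (Finset.mem_insert_of_mem hi))
    have hDa := hD a (Finset.mem_insert_self _ _)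
    have hpa := hp a (Finset.mem_insert_self _ _)
    have h1 := (p a).as_sum_range_C_mul_X_pow' (show (p a).natDegree < D + 1 by omega)
    have h2 : (p a * ∏ i ∈ s, p i).coeff k =
        ∑ l ∈ Finset.range (D + 1), (p a).coeff l * (if l ≤ k then (∏ i ∈ s, p i).coeff (k - l)
          else 0) := by
      conv_lhs => rw [h1]
      rw [Finset.sum_mul, finsetSum_coeff]
      refine Finset.sum_congr rfl fun l _ => ?_
      rw [mul_assoc, coeff_C_mul, coeff_X_pow_mul']
    rw [h2]
    have hpos : 0 ≤ ((D + 1 : ℤ) * H) ^ s.card := by positivity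
    calc |∑ l ∈ Finset.range (D + 1), (p a).coeff l * (if l ≤ k then (∏ i ∈ s, p i).coeff (k - l)
          else 0)| ≤ ∑ l ∈ Finset.range (D + 1), |(p a).coeff l * (if l ≤ k then
            (∏ i ∈ s, p i).coeff (k - l) else 0)| := Finset.abs_sum_le_sum_abs _ _
      _ ≤ ∑ _l ∈ Finset.range (D + 1), H * ((D + 1) * H) ^ s.card := by
          refine Finset.sum_le_sum fun l _ => ?_
          rw [abs_mul]
          refine mul_le_mul (hpa l) ?_ (abs_nonneg _) hH
          split_ifs
          · exact ih' _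
          · rw [abs_zero]; exact hpos
      _ = _ := by
          rw [Finset.sum_const, Finset.card_range, nsmul_eq_mul]
          push_cast
          ring

/-- degree and coefficients of determinants -/
lemma det_bounds (N D : ℕ) (H : ℤ) (hH : 0 ≤ H) (M : Matrix (Fin N) (Fin N) ℤ[X])
    (hD : ∀ i j, (M i j).natDegree ≤ D) (hM : ∀ i j k, |(M i j).coeff k| ≤ H) :
    M.det.natDegree ≤ N * D ∧ ∀ k, |M.det.coeff k| ≤ N.factorial * ((D + 1) * H) ^ N := by
  classical
  constructor
  · rw [Matrix.det_apply]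
    refine natDegree_sum_le_of_forall_le _ _ fun σ _ => ?_
    have h1 : (∏ i, M (σ i) i).natDegree ≤ N * D := by
      refine (natDegree_prod_le _ _).trans ?_
      calc ∑ i, (M (σ i) i).natDegree ≤ ∑ _i : Fin N, D := Finset.sum_le_sum fun i _ => hD _ _
        _ = N * D := by simp
    rcases Int.units_eq_one_or (Equiv.Perm.sign σ) with h | h
    · rw [h, one_smul]; exact h1
    · rw [h, Units.neg_smul, one_smul, natDegree_neg]; exact h1
  · intro k
    rw [Matrix.det_apply, finsetSum_coeff]
    calc |∑ σ : Equiv.Perm (Fin N), (Equiv.Perm.sign σ • ∏ i, M (σ i) i).coeff k|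
        ≤ ∑ σ : Equiv.Perm (Fin N), |(Equiv.Perm.sign σ • ∏ i, M (σ i) i).coeff k| :=
          Finset.abs_sum_le_sum_abs _ _
      _ ≤ ∑ _σ : Equiv.Perm (Fin N), ((D + 1) * H) ^ N := by
          refine Finset.sum_le_sum fun σ _ => ?_
          have h1 := coeff_prod_le Finset.univ (fun i => M (σ i) i) D H hH (fun i _ => hD _ _)
            (fun i _ k => hM _ _ k) k
          rw [Finset.card_univ, Fintype.card_fin] at h1
          rcases Int.units_eq_one_or (Equiv.Perm.sign σ) with h | h
          · rw [h, one_smul]; exact h1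
          · rw [h, Units.neg_smul, one_smul, coeff_neg, abs_neg]; exact h1
      _ = _ := by
          rw [Finset.sum_const, Finset.card_univ, Fintype.card_perm, Fintype.card_fin, nsmul_eq_mul]

/-- degree and coefficients of resultants -/
lemma resultant_bounds (P Q : ℤ[X][X]) (m n D : ℕ) (H : ℤ) (hH : 0 ≤ H)
    (hPD : ∀ j, (P.coeff j).natDegree ≤ D) (hQD : ∀ j, (Q.coeff j).natDegree ≤ D)
    (hPH : ∀ j k, |(P.coeff j).coeff k| ≤ H) (hQH : ∀ j k, |(Q.coeff j).coeff k| ≤ H) :
    (resultant P Q m n).natDegree ≤ (m + n) * D ∧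
      ∀ k, |(resultant P Q m n).coeff k| ≤ (m + n).factorial * ((D + 1) * H) ^ (m + n) := by
  have key : ∀ i j, (sylvester P Q m n i j).natDegree ≤ D ∧
      ∀ k, |(sylvester P Q m n i j).coeff k| ≤ H := by
    intro i j
    rw [sylvester, Matrix.of_apply]
    refine Fin.addCases (fun j₁ => ?_) (fun j₁ => ?_) j
    · rw [Fin.addCases_left]
      split_ifs
      · exact ⟨hQD _, fun k => hQH _ _⟩
      · refine ⟨by simp, fun k => by simpa using hH⟩
    · rw [Fin.addCases_right]
      split_ifs
      · exact ⟨hPD _, fun k => hPH _ _⟩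
      · refine ⟨by simp, fun k => by simpa using hH⟩
  exact det_bounds (m + n) D H hH _ (fun i j => (key i j).1) (fun i j k => (key i j).2 k)

end Pool.Agent.TH647.NR
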