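import Mathlib

/-!
# A counting lemma for sets with a gap property
-/

set_option autoImplicit false

namespace Pool.Agent.TH647.NR

open Real Set

/-- If the heights of the elements of `S` grow at least like `h ↦ C h^γ`, then there are at most
`log log X / log ρ + C'` elements of height at most `X`, for every `ρ < γ`. -/
theorem count_of_gap {α : Type*} (S : Set α) (h : α → ℝ) (hfin : ∀ X : ℝ, {x ∈ S | h x ≤ X}.Finite)
    (C γ ρ : ℝ) (hC : 0 < C) (hρ : 1 < ρ) (hργ : ρ < γ)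
    (hgap : ∀ x ∈ S, ∀ y ∈ S, x ≠ y → h x ≤ h y → 1 ≤ h x → C * h x ^ γ ≤ h y) :
    ∃ C' : ℝ, ∀ X : ℝ, 3 ≤ X → {x ∈ S | h x ≤ X}.Finite ∧
      ({x ∈ S | h x ≤ X}.ncard : ℝ) ≤ log (log X) / log ρ + C' := by
  have hlρ : 0 < log ρ := Real.log_pos hρ
  -- threshold
  obtain ⟨H₀, hH3, hH0⟩ : ∃ H₀ : ℝ, 3 ≤ H₀ ∧ ∀ H : ℝ, H₀ ≤ H → H ^ ρ ≤ C * H ^ γ := by
    have h1 := tendsto_rpow_atTop (show 0 < γ - ρ by linarith)
    have h2 := h1.eventually_ge_atTop (1 / C)
    obtain ⟨a, ha⟩ := Filter.eventually_atTop.1 h2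
    refine ⟨max a 3, le_max_right _ _, fun H hH => ?_⟩
    have hH3 : 3 ≤ H := (le_max_right _ _).trans hH
    have hH0 : 0 < H := by linarith
    have h3 := ha H ((le_max_left _ _).trans hH)
    rw [div_le_iff₀ hC] at h3
    have h4 : H ^ γ = H ^ ρ * H ^ (γ - ρ) := by
      rw [← Real.rpow_add hH0]; congr 1; ring
    rw [h4]
    have h5 : 0 < H ^ ρ := Real.rpow_pos_of_pos hH0 _
    nlinarith
  have hlog3 : 1 < log 3 := by
    have h1 : Real.exp 1 < 3 := by
      have := Real.exp_one_lt_d9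
      linarith
    have := Real.log_lt_log (Real.exp_pos 1) h1
    rwa [Real.log_exp] at this
  have hll : ∀ H : ℝ, 3 ≤ H → 0 < log (log H) := by
    intro H hH
    apply Real.log_pos
    exact hlog3.trans_le (Real.log_le_log (by norm_num) hH)
  set N₀ : ℕ := {x ∈ S | h x ≤ H₀}.ncard with hN₀
  refine ⟨N₀ + 1, fun X hX => ⟨hfin X, ?_⟩⟩
  have hsub : {x ∈ S | h x ≤ X} ⊆ {x ∈ S | h x ≤ H₀} ∪ {x ∈ S | H₀ ≤ h x ∧ h x ≤ X} := by
    rintro x ⟨hx, hxX⟩
    rcases le_total (h x) H₀ with h1 | h1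
    · exact Or.inl ⟨hx, h1⟩
    · exact Or.inr ⟨hx, h1, hxX⟩
  have hfin2 : {x ∈ S | H₀ ≤ h x ∧ h x ≤ X}.Finite :=
    (hfin X).subset fun x hx => ⟨hx.1, hx.2.2⟩
  -- the big elements
  have hbig : ({x ∈ S | H₀ ≤ h x ∧ h x ≤ X}.ncard : ℝ) ≤ log (log X) / log ρ + 1 := by
    set g : α → ℕ := fun x => ⌊log (log (h x)) / log ρ⌋₊ with hg
    have hmaps : ∀ x ∈ {x ∈ S | H₀ ≤ h x ∧ h x ≤ X},
        g x ∈ (Finset.range (⌊log (log X) / log ρ⌋₊ + 1) : Set ℕ) := by
      rintro x ⟨hx, hx1, hx2⟩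
      rw [Finset.coe_range, Set.mem_Iio, Nat.lt_succ_iff]
      refine Nat.floor_le_floor ?_
      gcongr
      · have : 1 < log (h x) := hlog3.trans_le (Real.log_le_log (by norm_num) (hH3.trans hx1))
        linarith
      · linarith
    have hinj : Set.InjOn g {x ∈ S | H₀ ≤ h x ∧ h x ≤ X} := by
      have key : ∀ x ∈ {x ∈ S | H₀ ≤ h x ∧ h x ≤ X}, ∀ y ∈ {x ∈ S | H₀ ≤ h x ∧ h x ≤ X},
          x ≠ y → h x ≤ h y → g x ≠ g y := by
        rintro x ⟨hx, hx1, hx2⟩ y ⟨hy, hy1, hy2⟩ hne hxy heq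
        have h1 := hgap x hx y hy hne hxy (by linarith)
        have h2 := hH0 (h x) hx1
        have hx0 : 0 < h x := by linarith
        have h3 : ρ * log (h x) ≤ log (h y) := by
          rw [← Real.log_rpow hx0]
          exact Real.log_le_log (Real.rpow_pos_of_pos hx0 _) (h2.trans h1)
        have hlx : 1 < log (h x) := hlog3.trans_le (Real.log_le_log (by norm_num) (hH3.trans hx1))
        have h4 : log ρ + log (log (h x)) ≤ log (log (h y)) := by
          rw [← Real.log_mul (by linarith) (by linarith)]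
          exact Real.log_le_log (by nlinarith) h3
        have h5 : log (log (h x)) / log ρ + 1 ≤ log (log (h y)) / log ρ := by
          rw [← div_self hlρ.ne', ← add_div]
          gcongr
          linarith
        have h6 : 0 ≤ log (log (h x)) / log ρ :=
          div_nonneg (hll _ (hH3.trans hx1)).le hlρ.le
        have h7 : g x + 1 ≤ g y := by
          simp only [hg]
          rw [← Nat.floor_add_one h6]
          exact Nat.floor_le_floor h5
        omega
      intro x hx y hy hgxy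
      by_contra hne
      rcases le_total (h x) (h y) with h1 | h1
      · exact key x hx y hy hne h1 hgxy
      · exact key y hy x hx (Ne.symm hne) h1 hgxy.symm
    have h1 := Set.ncard_le_ncard_of_injOn g hmaps hinj (Finset.finite_toSet _)
    rw [Set.ncard_coe_finset, Finset.card_range] at h1
    have h2 : ((⌊log (log X) / log ρ⌋₊ : ℕ) : ℝ) ≤ log (log X) / log ρ :=
      Nat.floor_le (div_nonneg (hll X hX).le hlρ.le)
    have h3 : ({x ∈ S | H₀ ≤ h x ∧ h x ≤ X}.ncard : ℝ) ≤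
      ((⌊log (log X) / log ρ⌋₊ + 1 : ℕ) : ℝ) := by exact_mod_cast h1
    push_cast at h3
    linarith
  have h1 : ({x ∈ S | h x ≤ X}.ncard : ℝ) ≤ (N₀ : ℝ) + ({x ∈ S | H₀ ≤ h x ∧ h x ≤ X}.ncard : ℝ) := by
    have h2 := Set.ncard_le_ncard hsub ((hfin H₀).union hfin2)
    have h3 := Set.ncard_union_le {x ∈ S | h x ≤ H₀} {x ∈ S | H₀ ≤ h x ∧ h x ≤ X}
    exact_mod_cast h2.trans h3
  linarith

end Pool.Agent.TH647.NR
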