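import Pool.Agent.TH647.NR.Res
import Pool.Agent.TH647.NR.Count
import Pool.Agent.W472.AC.EMeas2

/-!
# Algebraic near relations between `e` and an arbitrary complex number
-/

set_option autoImplicit false

namespace Pool.Agent.TH647.NR

open Polynomial Finset

/-- the largest absolute value of a coefficient of `P` -/
noncomputable def hgt (P : ℤ[X][X]) : ℕ :=
  P.support.sup fun j => (P.coeff j).support.sup fun i => ((P.coeff j).coeff i).natAbs

/-- evaluation of polynomials in `x` at `e` -/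
noncomputable def σe : ℤ[X] →+* ℂ := (aeval (Complex.exp 1)).toRingHom

/-- the value `P(e, t)` -/
noncomputable def vl (t : ℂ) (P : ℤ[X][X]) : ℂ := (P.map σe).eval t

lemma le_hgt (P : ℤ[X][X]) (j i : ℕ) : ((P.coeff j).coeff i).natAbs ≤ hgt P := by
  by_cases h : (P.coeff j).coeff i = 0
  · rw [h]; simp
  · have hj : j ∈ P.support := by
      rw [mem_support_iff]
      intro h0
      rw [h0, coeff_zero] at h
      exact h rfl
    have hi : i ∈ (P.coeff j).support := mem_support_iff.2 h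
    have h1 := Finset.le_sup (f := fun i => ((P.coeff j).coeff i).natAbs) hi
    have h2 := Finset.le_sup (f := fun j => (P.coeff j).support.sup fun i =>
      ((P.coeff j).coeff i).natAbs) hj
    exact h1.trans h2

lemma hgt_pos (P : ℤ[X][X]) (hP : P ≠ 0) : 1 ≤ hgt P := by
  have h1 : P.leadingCoeff.leadingCoeff ≠ 0 := by
    rw [Ne, leadingCoeff_eq_zero, leadingCoeff_eq_zero]
    exact hP
  have h2 := le_hgt P P.natDegree P.leadingCoeff.natDegree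
  have h3 : 1 ≤ (P.leadingCoeff.leadingCoeff).natAbs := by
    rw [Nat.one_le_iff_ne_zero, Ne, Int.natAbs_eq_zero]
    exact h1
  exact h3.trans h2

lemma fin_set (D : ℕ) (Y : ℝ) : {P : ℤ[X][X] | P.natDegree ≤ D ∧ (∀ j, (P.coeff j).natDegree ≤ D) ∧
    (hgt P : ℝ) ≤ Y}.Finite := by
  have hball : {v : Fin (D + 1) → Fin (D + 1) → ℤ | ‖v‖ ≤ |Y|}.Finite := by
    have h1 : {v : Fin (D + 1) → Fin (D + 1) → ℤ | ‖v‖ ≤ |Y|} = Metric.closedBall 0 |Y| := by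
      ext v; simp
    rw [h1]
    exact (isCompact_closedBall (0 : Fin (D + 1) → Fin (D + 1) → ℤ) |Y|).finite_of_discrete
  refine Set.Finite.of_injOn (f := fun (P : ℤ[X][X]) (j i : Fin (D + 1)) =>
    (P.coeff (j : ℕ)).coeff (i : ℕ)) ?_ ?_ hball
  · rintro P ⟨h1, h2, h3⟩
    show ‖_‖ ≤ |Y|
    refine (pi_norm_le_iff_of_nonneg (abs_nonneg _)).2 fun j =>
      (pi_norm_le_iff_of_nonneg (abs_nonneg _)).2 fun i => ?_
    rw [Int.norm_eq_abs]
    have h4 := le_hgt P j i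
    have h5 : |(((P.coeff (j : ℕ)).coeff (i : ℕ) : ℤ) : ℝ)| ≤ hgt P := by
      rw [← Int.cast_abs, Int.abs_eq_natAbs]
      exact_mod_cast h4
    exact h5.trans (h3.trans (le_abs_self _))
  · rintro P ⟨h1, h2, h3⟩ Q ⟨h1', h2', h3'⟩ h
    ext j i
    by_cases hj : j ≤ D
    · by_cases hi : i ≤ D
      · have := congrFun (congrFun h ⟨j, by omega⟩) ⟨i, by omega⟩
        exact this
      · rw [coeff_eq_zero_of_natDegree_lt (lt_of_le_of_lt (h2 j) (by omega)),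
          coeff_eq_zero_of_natDegree_lt (lt_of_le_of_lt (h2' j) (by omega))]
    · rw [coeff_eq_zero_of_natDegree_lt (p := P) (lt_of_le_of_lt h1 (by omega)),
        coeff_eq_zero_of_natDegree_lt (p := Q) (lt_of_le_of_lt h1' (by omega))]

lemma not_assoc (P Q : ℤ[X][X]) (hP : 0 < P.leadingCoeff.leadingCoeff)
    (hQ : 0 < Q.leadingCoeff.leadingCoeff) (hne : P ≠ Q) : ¬ Associated P Q := by
  rintro ⟨u, hu⟩
  have h1 := Polynomial.isUnit_iff.1 u.isUnit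
  obtain ⟨r, hr, hru⟩ := h1
  obtain ⟨s, hs, hsr⟩ := Polynomial.isUnit_iff.1 hr
  rw [← hru, ← hsr] at hu
  rcases Int.isUnit_iff.1 hs with h | h
  · rw [h] at hu
    simp at hu
    exact hne hu
  · rw [h] at hu
    have h2 : Q = -P := by
      rw [← hu]; simp only [C_neg, C_1]; ring
    rw [h2, leadingCoeff_neg, leadingCoeff_neg] at hQ
    linarith

lemma σe_coeff (D : ℕ) (q : ℤ[X]) (h : ℝ) (hq : q.natDegree ≤ D) (hh : ∀ i, |(q.coeff i : ℝ)| ≤ h) :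
    ‖σe q‖ ≤ (D + 1) * Real.exp D * h := by
  have h0 : 0 ≤ h := (abs_nonneg _).trans (hh 0)
  have e1 : σe q = ∑ i ∈ range (D + 1), (q.coeff i : ℂ) * (Complex.exp 1) ^ i := by
    show aeval (Complex.exp 1) q = _
    rw [aeval_eq_sum_range' (show q.natDegree < D + 1 by omega)]
    refine Finset.sum_congr rfl fun i _ => ?_
    rw [zsmul_eq_mul]
  rw [e1]
  calc ‖∑ i ∈ range (D + 1), (q.coeff i : ℂ) * (Complex.exp 1) ^ i‖
      ≤ ∑ i ∈ range (D + 1), ‖(q.coeff i : ℂ) * (Complex.exp 1) ^ i‖ := norm_sum_le _ _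
    _ ≤ ∑ _i ∈ range (D + 1), h * Real.exp D := by
        refine Finset.sum_le_sum fun i hi => ?_
        rw [norm_mul, norm_pow]
        have h2 : ‖(q.coeff i : ℂ)‖ ≤ h := by
          rw [Complex.norm_intCast]
          exact hh i
        have h3 : ‖Complex.exp 1‖ ^ i ≤ Real.exp D := by
          rw [Complex.norm_exp, Complex.one_re, ← Real.exp_nat_mul, mul_one]
          apply Real.exp_le_exp.2
          rw [Finset.mem_range] at hi
          exact_mod_cast (by omega : i ≤ D)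
        gcongr
    _ = _ := by
        rw [Finset.sum_const, card_range, nsmul_eq_mul]
        push_cast
        ring

open Pool.Agent.W472.AC

/-- the normalised irreducible polynomials of bounded degree, of positive degree in `y` -/
def IR (D : ℕ) : Set ℤ[X][X] :=
  {P | Irreducible P ∧ 0 < P.natDegree ∧ P.natDegree ≤ D ∧ (∀ j, (P.coeff j).natDegree ≤ D) ∧
    0 < P.leadingCoeff.leadingCoeff}

/-- two different irreducible polynomials are not both small at `(e, t)` -/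
theorem core (D : ℕ) (hD : 1 ≤ D) (κ : ℝ) (hκ : 4 * (D : ℝ) ^ 3 + 2 * D < κ) (T : ℝ) (hT : 1 ≤ T) :
    ∃ C : ℝ, 0 < C ∧ ∀ t : ℂ, ‖t‖ ≤ T → ∀ P ∈ IR D, ∀ Q ∈ IR D, P ≠ Q → ∀ H : ℝ, (hgt P : ℝ) ≤ H →
      (hgt Q : ℝ) ≤ H → C * H ^ (-κ) ≤ max ‖vl t P‖ ‖vl t Q‖ := by
  have hDR : (1 : ℝ) ≤ D := by exact_mod_cast hD
  obtain ⟨η, hη'⟩ : ∃ η : ℝ, η = κ / (2 * D) - (2 * D ^ 2 + 1) := ⟨_, rfl⟩
  have hκE : κ = 2 * D * (2 * D ^ 2 + 1 + η) := by
    rw [hη']; field_simp; ring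
  have hη : 0 < η := by
    rw [hη', sub_pos, lt_div_iff₀ (by positivity)]
    nlinarith
  obtain ⟨c, hc, hm⟩ := e_measP (2 * D * D) η hη
  obtain ⟨A, hA⟩ : ∃ A : ℝ, A = (D + 1) * Real.exp D := ⟨_, rfl⟩
  have hA1 : 1 ≤ A := by
    rw [hA]
    have : 1 ≤ Real.exp D := Real.one_le_exp (by positivity)
    nlinarith
  obtain ⟨K₁, hK₁⟩ : ∃ K₁ : ℝ, K₁ = (2 * D) * T ^ (2 * D) * ((2 * D).factorial * A ^ (2 * D)) :=
    ⟨_, rfl⟩
  have hK₁0 : 0 < K₁ := by rw [hK₁]; positivity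
  obtain ⟨K₂, hK₂⟩ : ∃ K₂ : ℝ, K₂ = (2 * D).factorial * ((D : ℝ) + 1) ^ (2 * D) := ⟨_, rfl⟩
  have hK₂1 : 1 ≤ K₂ := by
    rw [hK₂]
    have h1 : (1 : ℝ) ≤ (2 * D).factorial := by exact_mod_cast Nat.factorial_pos _
    have h2 : (1 : ℝ) ≤ ((D : ℝ) + 1) ^ (2 * D) := one_le_pow₀ (by linarith)
    nlinarith
  obtain ⟨r, hr⟩ : ∃ r : ℝ, r = ((2 * D * D : ℕ) : ℝ) + η := ⟨_, rfl⟩
  have hr0 : 0 < r := by rw [hr]; positivity
  refine ⟨c / (K₁ * K₂ ^ r), by positivity, ?_⟩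
  rintro t htT P ⟨hP1, hP2, hP3, hP4, hP5⟩ Q ⟨hQ1, hQ2, hQ3, hQ4, hQ5⟩ hne H hPH hQH
  have hH1 : 1 ≤ H := by
    have : (1 : ℝ) ≤ hgt P := by exact_mod_cast hgt_pos P hP1.ne_zero
    linarith
  have hH0 : 0 < H := by linarith
  obtain ⟨ε, hε⟩ : ∃ ε : ℝ, ε = max ‖vl t P‖ ‖vl t Q‖ := ⟨_, rfl⟩
  have hε0 : 0 ≤ ε := by rw [hε]; exact (norm_nonneg _).trans (le_max_left _ _)
  rw [← hε]
  obtain ⟨m, hm'⟩ : ∃ m, m = P.natDegree := ⟨_, rfl⟩
  obtain ⟨n, hn'⟩ : ∃ n, n = Q.natDegree := ⟨_, rfl⟩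
  have hN : m + n ≤ 2 * D := by omega
  have hN0 : 0 < m + n := by omega
  obtain ⟨R, hR⟩ : ∃ R, R = resultant P Q m n := ⟨_, rfl⟩
  have hR0 : R ≠ 0 := by
    rw [hR, hm', hn']
    exact resultant_ne_zero_of_irreducible P Q hP1 hQ1 hP2 hQ2 (not_assoc P Q hP5 hQ5 hne)
  -- coefficients
  have hcP : ∀ j k, |(((P.coeff j).coeff k : ℤ) : ℝ)| ≤ H := by
    intro j k
    refine le_trans ?_ hPH
    rw [← Int.cast_abs, Int.abs_eq_natAbs]
    exact_mod_cast le_hgt P j k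
  have hcQ : ∀ j k, |(((Q.coeff j).coeff k : ℤ) : ℝ)| ≤ H := by
    intro j k
    refine le_trans ?_ hQH
    rw [← Int.cast_abs, Int.abs_eq_natAbs]
    exact_mod_cast le_hgt Q j k
  -- upper bound
  have hup : ‖σe R‖ ≤ K₁ * H ^ (2 * D) * ε := by
    have hB : 1 ≤ A * H := by nlinarith
    have h3 := norm_resultant_le (P.map σe) (Q.map σe) m n
      (natDegree_map_le.trans hm'.ge) (natDegree_map_le.trans hn'.ge) hN0 (A * H) T
      ε hB
      (fun i => by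
        rw [coeff_map, hA]
        exact σe_coeff D _ H (hP4 i) (hcP i))
      (fun i => by
        rw [coeff_map, hA]
        exact σe_coeff D _ H (hQ4 i) (hcQ i)) t hT htT (by rw [hε]; exact le_max_left _ _)
      (by rw [hε]; exact le_max_right _ _)
    rw [resultant_map_map, ← hR] at h3
    refine h3.trans ?_
    have hNR : ((m : ℝ) + n) ≤ 2 * D := by exact_mod_cast hN
    have h4 : T ^ (m + n) ≤ T ^ (2 * D) := pow_le_pow_right₀ hT hN
    have h5 : (((m + n).factorial : ℕ) : ℝ) ≤ (2 * D).factorial := by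
      exact_mod_cast Nat.factorial_le hN
    have h6 : (A * H) ^ (m + n) ≤ (A * H) ^ (2 * D) := pow_le_pow_right₀ hB hN
    calc ((m : ℝ) + n) * (T ^ (m + n) * ε) * ((m + n).factorial * (A * H) ^ (m + n))
        ≤ (2 * D) * (T ^ (2 * D) * ε) * ((2 * D).factorial * (A * H) ^ (2 * D)) := by
          gcongr
      _ = _ := by
          rw [hK₁, mul_pow]
          ring
  -- lower bound
  have hlow : c ≤ (K₂ * H ^ (2 * D)) ^ r * ‖σe R‖ := by
    obtain ⟨h', hh'1, hh'2, hh'3⟩ : ∃ h' : ℕ, (h' : ℝ) ≤ H ∧ hgt P ≤ h' ∧ hgt Q ≤ h' :=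
      ⟨max (hgt P) (hgt Q), by push_cast; exact max_le hPH hQH, le_max_left _ _, le_max_right _ _⟩
    obtain ⟨b1, b2⟩ := resultant_bounds P Q m n D (h' : ℤ) (by positivity) hP4 hQ4
      (fun j k => by
        rw [Int.abs_eq_natAbs]
        exact_mod_cast (le_hgt P j k).trans hh'2)
      (fun j k => by
        rw [Int.abs_eq_natAbs]
        exact_mod_cast (le_hgt Q j k).trans hh'3)
    rw [← hR] at b1 b2
    have h3 : ∀ k, |(R.coeff k : ℝ)| ≤ K₂ * H ^ (2 * D) := by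
      intro k
      have h4 := b2 k
      have h5 : |(R.coeff k : ℝ)| ≤ (m + n).factorial * (((D : ℝ) + 1) * h') ^ (m + n) := by
        exact_mod_cast h4
      refine h5.trans ?_
      have h6 : (((m + n).factorial : ℕ) : ℝ) ≤ (2 * D).factorial := by
        exact_mod_cast Nat.factorial_le hN
      have h8 : (1 : ℝ) ≤ ((D : ℝ) + 1) * H := by nlinarith
      have h7 : (((D : ℝ) + 1) * H) ^ (m + n) ≤ (((D : ℝ) + 1) * H) ^ (2 * D) :=
        pow_le_pow_right₀ h8 hN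
      calc ((m + n).factorial : ℝ) * (((D : ℝ) + 1) * h') ^ (m + n)
          ≤ (m + n).factorial * (((D : ℝ) + 1) * H) ^ (m + n) := by gcongr
        _ ≤ (2 * D).factorial * (((D : ℝ) + 1) * H) ^ (2 * D) := by gcongr
        _ = _ := by rw [hK₂, mul_pow]; ring
    have h4 : 1 ≤ K₂ * H ^ (2 * D) := by
      have : 1 ≤ H ^ (2 * D) := one_le_pow₀ hH1
      nlinarith
    have h5 := hm R hR0 (b1.trans (Nat.mul_le_mul_right _ hN)) (K₂ * H ^ (2 * D)) h4 h3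
    rw [← hr] at h5
    have h6 : ‖σe R‖ = |aeval (Real.exp 1) R| := by
      have h7 : σe R = ((aeval (Real.exp 1) R : ℝ) : ℂ) := by
        have h8 := Polynomial.aeval_algebraMap_apply ℂ (Real.exp 1) R
        show aeval (Complex.exp 1) R = _
        have h9 : Complex.exp 1 = algebraMap ℝ ℂ (Real.exp 1) := by simp
        rw [h9, h8]
        rfl
      rw [h7, Complex.norm_real, Real.norm_eq_abs]
    rw [h6]
    exact h5
  -- conclusion
  have hpowr : (K₂ * H ^ (2 * D)) ^ r = K₂ ^ r * H ^ ((2 * D : ℝ) * r) := by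
    rw [Real.mul_rpow (by linarith) (by positivity), ← Real.rpow_natCast H (2 * D),
      ← Real.rpow_mul hH0.le]
    push_cast
    rfl
  have h2D : H ^ (2 * D) = H ^ (2 * D : ℝ) := by
    rw [← Real.rpow_natCast H (2 * D)]
    push_cast
    rfl
  have hfin : c ≤ (K₁ * K₂ ^ r) * (H ^ κ * ε) := by
    calc c ≤ (K₂ * H ^ (2 * D)) ^ r * ‖σe R‖ := hlow
      _ ≤ (K₂ * H ^ (2 * D)) ^ r * (K₁ * H ^ (2 * D) * ε) := by gcongr
      _ = (K₁ * K₂ ^ r) * (H ^ κ * ε) := by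
          rw [hpowr, h2D]
          have : κ = (2 * D : ℝ) * r + 2 * D := by
            rw [hκE, hr]; push_cast; ring
          rw [this, Real.rpow_add hH0]
          ring
  have hKK : 0 < K₁ * K₂ ^ r := by positivity
  have h9 : H ^ (-κ) * H ^ κ = 1 := by rw [← Real.rpow_add hH0]; simp
  rw [div_mul_eq_mul_div, div_le_iff₀ hKK]
  calc c * H ^ (-κ) ≤ ((K₁ * K₂ ^ r) * (H ^ κ * ε)) * H ^ (-κ) := by
        have : 0 ≤ H ^ (-κ) := by positivity
        gcongr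
    _ = ε * (K₁ * K₂ ^ r) * (H ^ (-κ) * H ^ κ) := by ring
    _ = _ := by rw [h9, mul_one]

/-- near relations are sparse -/
theorem sparse_alg (D : ℕ) (hD : 1 ≤ D) (t : ℂ) (w ρ : ℝ) (hw : 4 * (D : ℝ) ^ 3 + 2 * D < w)
    (hρ : 1 < ρ) (hρw : ρ < w / (4 * (D : ℝ) ^ 3 + 2 * D)) :
    ∃ C : ℝ, ∀ X : ℝ, 3 ≤ X →
      {P ∈ {P : ℤ[X][X] | P ∈ IR D ∧ ‖vl t P‖ ≤ (hgt P : ℝ) ^ (-w)} | (hgt P : ℝ) ≤ X}.Finite ∧
      ({P ∈ {P : ℤ[X][X] | P ∈ IR D ∧ ‖vl t P‖ ≤ (hgt P : ℝ) ^ (-w)} | (hgt P : ℝ) ≤ X}.ncard : ℝ) ≤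
        Real.log (Real.log X) / Real.log ρ + C := by
  have hDR : (1 : ℝ) ≤ D := by exact_mod_cast hD
  have hE0 : 0 < 4 * (D : ℝ) ^ 3 + 2 * D := by positivity
  obtain ⟨κ, hκ1, hκ2⟩ : ∃ κ : ℝ, 4 * (D : ℝ) ^ 3 + 2 * D < κ ∧ κ < w / ρ := by
    apply _root_.exists_between
    rw [lt_div_iff₀ (by linarith)]
    rw [lt_div_iff₀ hE0] at hρw
    linarith
  have hκ0 : 0 < κ := by linarith
  have hρκ : ρ < w / κ := by
    rw [lt_div_iff₀ (by linarith)] at hκ2 ⊢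
    linarith
  obtain ⟨C, hC, hcore⟩ := core D hD κ hκ1 (max 1 ‖t‖) (le_max_left _ _)
  refine count_of_gap _ (fun P => (hgt P : ℝ)) (fun Y => (fin_set D Y).subset ?_)
    (C ^ (1 / κ)) (w / κ) ρ (by positivity) hρ hρκ ?_
  · rintro P ⟨⟨⟨h1, h2, h3, h4, h5⟩, h6⟩, h7⟩
    exact ⟨h3, h4, h7⟩
  · rintro P ⟨hP, hPt⟩ Q ⟨hQ, hQt⟩ hne hle h1
    obtain ⟨h₁, hh₁⟩ : ∃ h₁ : ℝ, h₁ = hgt P := ⟨_, rfl⟩
    obtain ⟨h₂, hh₂⟩ : ∃ h₂ : ℝ, h₂ = hgt Q := ⟨_, rfl⟩
    simp only [← hh₁, ← hh₂] at hle h1 hPt hQt ⊢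
    have h₁0 : 0 < h₁ := by linarith
    have h₂0 : 0 < h₂ := by linarith
    have h2 := hcore t (le_max_right _ _) P hP Q hQ hne h₂ (by rw [← hh₁]; exact hle)
      (by rw [← hh₂])
    have h3 : max ‖vl t P‖ ‖vl t Q‖ ≤ h₁ ^ (-w) :=
      max_le hPt (hQt.trans (Real.rpow_le_rpow_of_nonpos h₁0 hle (by linarith)))
    have h4 : C * h₁ ^ w ≤ h₂ ^ κ := by
      have h5 : h₁ ^ (-w) * h₁ ^ w = 1 := by rw [← Real.rpow_add h₁0]; simp
      have h6 : h₂ ^ (-κ) * h₂ ^ κ = 1 := by rw [← Real.rpow_add h₂0]; simp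
      calc C * h₁ ^ w = (C * h₂ ^ (-κ)) * (h₁ ^ w * h₂ ^ κ) := by
            calc C * h₁ ^ w = C * h₁ ^ w * (h₂ ^ (-κ) * h₂ ^ κ) := by rw [h6, mul_one]
              _ = _ := by ring
        _ ≤ h₁ ^ (-w) * (h₁ ^ w * h₂ ^ κ) :=
            mul_le_mul_of_nonneg_right (h2.trans h3) (by positivity)
        _ = (h₁ ^ (-w) * h₁ ^ w) * h₂ ^ κ := by ring
        _ = _ := by rw [h5, one_mul]
    have h7 := Real.rpow_le_rpow (by positivity) h4 (show 0 ≤ 1 / κ by positivity)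
    rw [Real.mul_rpow hC.le (by positivity), ← Real.rpow_mul h₁0.le,
      ← Real.rpow_mul h₂0.le, mul_one_div, mul_one_div, div_self hκ0.ne', Real.rpow_one] at h7
    exact h7

end Pool.Agent.TH647.NR
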