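import Pool.Agent.TH647.NR.Count
import Pool.Agent.W472.AC.EMeas2

/-!
# Near relations between numbers with a measure of linear independence and one arbitrary number
-/

set_option autoImplicit false

namespace Pool.Agent.TH647.NR

open Real Set Pool.Agent.W472.AC

/-- no common divisor -/
def Prim {m : ℕ} (v : (Fin (m + 1) → ℤ) × ℤ) : Prop :=
  ∀ d : ℤ, (∀ i, d ∣ v.1 i) → d ∣ v.2 → IsUnit d

/-- value of the form -/
noncomputable def lin {m : ℕ} (θ : Fin (m + 1) → ℝ) (t : ℝ) (v : (Fin (m + 1) → ℤ) × ℤ) : ℝ :=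
  ∑ i, (v.1 i : ℝ) * θ i + v.2 * t

lemma eq_of_prop_aux {b b' : ℤ} (hb : 0 < b) (hb' : 0 < b') {m : ℕ} (a a' : Fin (m + 1) → ℤ)
    (h : ∀ i, b' * a i = b * a' i) (hp : Prim (a, b)) : ∃ k : ℤ, b' = k * b ∧ 0 < k := by
  have hg0 : 0 < Int.gcd b b' := Int.gcd_pos_of_ne_zero_left _ hb.ne'
  obtain ⟨β, β', hcop, hβ, hβ'⟩ := Int.exists_gcd_one hg0
  have hg : (0 : ℤ) < (Int.gcd b b' : ℤ) := by exact_mod_cast hg0
  set g : ℤ := (Int.gcd b b' : ℤ) with hgd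
  have hβ0 : 0 < β := by
    by_contra hcon
    push Not at hcon
    nlinarith
  have hβ'0 : 0 < β' := by
    by_contra hcon
    push Not at hcon
    nlinarith
  have hdiv : ∀ i, β ∣ a i := by
    intro i
    have h1 : β' * a i = β * a' i := by
      have h2 := h i
      rw [hβ, hβ'] at h2
      have h3 : g * (β' * a i) = g * (β * a' i) := by linarith
      exact mul_left_cancel₀ hg.ne' h3
    have h2 : β ∣ β' * a i := ⟨a' i, h1⟩
    have h3 : IsCoprime β β' := Int.isCoprime_iff_gcd_eq_one.2 hcop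
    exact h3.dvd_of_dvd_mul_left h2
  have hu : IsUnit β := hp β hdiv ⟨g, hβ⟩
  have h1 : β = 1 := by
    rcases Int.isUnit_iff.1 hu with h2 | h2
    · exact h2
    · omega
  refine ⟨β', ?_, hβ'0⟩
  rw [h1, one_mul] at hβ
  rw [hβ]
  exact hβ'

lemma eq_of_prop {m : ℕ} (v v' : (Fin (m + 1) → ℤ) × ℤ) (hb : 0 < v.2) (hb' : 0 < v'.2)
    (h : ∀ i, v'.2 * v.1 i = v.2 * v'.1 i) (hp : Prim v) (hp' : Prim v') : v = v' := by
  obtain ⟨k, hk, hk0⟩ := eq_of_prop_aux hb hb' v.1 v'.1 h hp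
  obtain ⟨k', hk', hk0'⟩ := eq_of_prop_aux hb' hb v'.1 v.1 (fun i => (h i).symm) hp'
  have h1 : v.2 = v'.2 := by
    have h2 : k' * k = 1 := by
      have h3 : (k' * k) * v.2 = 1 * v.2 := by
        rw [mul_assoc, ← hk, ← hk', one_mul]
      exact mul_right_cancel₀ hb.ne' h3
    have h3 : k = 1 := by nlinarith
    rw [hk, h3, one_mul]
  refine Prod.ext ?_ h1
  funext i
  have h2 := h i
  rw [← h1] at h2
  exact mul_left_cancel₀ hb.ne' h2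

lemma abs_fst_le {m : ℕ} (v : (Fin (m + 1) → ℤ) × ℤ) (i : Fin (m + 1)) :
    |(v.1 i : ℝ)| ≤ ‖v‖ := by
  have h1 : ‖v.1 i‖ ≤ ‖v.1‖ := norm_le_pi_norm _ _
  have h2 : ‖v.1‖ ≤ ‖v‖ := _root_.norm_fst_le v
  have h3 : ‖v.1 i‖ = |(v.1 i : ℝ)| := rfl
  rw [← h3]
  exact h1.trans h2

lemma norm_snd_le' {m : ℕ} (v : (Fin (m + 1) → ℤ) × ℤ) : |(v.2 : ℝ)| ≤ ‖v‖ := norm_snd_le v

lemma finite_ball {m : ℕ} (X : ℝ) : {v : (Fin (m + 1) → ℤ) × ℤ | ‖v‖ ≤ X}.Finite := by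
  have h1 : {v : (Fin (m + 1) → ℤ) × ℤ | ‖v‖ ≤ X} = Metric.closedBall 0 X := by
    ext v; simp
  rw [h1]
  exact (isCompact_closedBall (0 : (Fin (m + 1) → ℤ) × ℤ) X).finite_of_discrete

/-- **Near relations are sparse.** -/
theorem sparse {m : ℕ} (θ : Fin (m + 1) → ℝ) (μ c : ℝ) (hμ : 0 ≤ μ) (hc : 0 < c)
    (hθ : Meas θ μ c) (t w ρ : ℝ) (hw : 2 * μ + 1 < w) (hρ : 1 < ρ) (hρw : ρ < (w - μ) / (μ + 1)) :
    ∃ C : ℝ, ∀ X : ℝ, 3 ≤ X →
      {v ∈ {v : (Fin (m + 1) → ℤ) × ℤ | 0 < v.2 ∧ Prim v ∧ |lin θ t v| ≤ ‖v‖ ^ (-w)} |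
        ‖v‖ ≤ X}.Finite ∧
      ({v ∈ {v : (Fin (m + 1) → ℤ) × ℤ | 0 < v.2 ∧ Prim v ∧ |lin θ t v| ≤ ‖v‖ ^ (-w)} |
        ‖v‖ ≤ X}.ncard : ℝ) ≤ log (log X) / log ρ + C := by
  have hμ1 : 0 < μ + 1 := by linarith
  have hγ : 1 < (w - μ) / (μ + 1) := by rw [lt_div_iff₀ hμ1]; linarith
  refine count_of_gap _ (fun v => ‖v‖) (fun X => (finite_ball X).subset fun v hv => hv.2)
    ((c / 2 ^ (μ + 1)) ^ (1 / (μ + 1))) ((w - μ) / (μ + 1)) ρ (by positivity) hρ hρw ?_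
  rintro v ⟨hv0, hvp, hvL⟩ v' ⟨hv0', hvp', hvL'⟩ hne hle h1
  set h : ℝ := ‖v‖ with hh
  set h' : ℝ := ‖v'‖ with hh'
  have hh0 : 0 < h := by linarith
  have hh0' : 0 < h' := by linarith
  -- the eliminated form
  set a : Fin (m + 1) → ℤ := fun i => v'.2 * v.1 i - v.2 * v'.1 i with ha
  have ha0 : a ≠ 0 := by
    intro hcon
    apply hne
    refine eq_of_prop v v' hv0 hv0' (fun i => ?_) hvp hvp'
    have := congrFun hcon i
    simp only [ha, Pi.zero_apply] at this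
    linarith
  have hbv : |(v.2 : ℝ)| ≤ h := norm_snd_le' v
  have hbv' : |(v'.2 : ℝ)| ≤ h' := norm_snd_le' v'
  have hab : ∀ i, |(a i : ℝ)| ≤ 2 * (h * h') := by
    intro i
    simp only [ha]
    push_cast
    have h2 : |(v.1 i : ℝ)| ≤ h := abs_fst_le v i
    have h2' : |(v'.1 i : ℝ)| ≤ h' := abs_fst_le v' i
    calc |(v'.2 : ℝ) * v.1 i - v.2 * v'.1 i| ≤ |(v'.2 : ℝ) * v.1 i| + |(v.2 : ℝ) * v'.1 i| :=
          abs_sub _ _
      _ ≤ h' * h + h * h' := by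
          rw [abs_mul, abs_mul]
          gcongr
      _ = _ := by ring
  have hm := hθ a ha0 (2 * (h * h')) (by nlinarith) hab
  have hsum : ∑ i, (a i : ℝ) * θ i = v'.2 * lin θ t v - v.2 * lin θ t v' := by
    unfold lin
    simp only [ha]
    rw [mul_add, mul_add, Finset.mul_sum, Finset.mul_sum]
    have : ∑ i, ((v'.2 * v.1 i - v.2 * v'.1 i : ℤ) : ℝ) * θ i =
        ∑ i, (v'.2 : ℝ) * ((v.1 i : ℝ) * θ i) - ∑ i, (v.2 : ℝ) * ((v'.1 i : ℝ) * θ i) := by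
      rw [← Finset.sum_sub_distrib]
      refine Finset.sum_congr rfl fun i _ => ?_
      push_cast
      ring
    rw [this]
    ring
  have hup : |∑ i, (a i : ℝ) * θ i| ≤ 2 * (h' * h ^ (-w)) := by
    rw [hsum]
    have h3 : h' ^ (-w) ≤ h ^ (-w) :=
      Real.rpow_le_rpow_of_nonpos hh0 hle (by linarith)
    have h4 : 0 ≤ h' ^ (-w) := by positivity
    have h5 : 0 ≤ h ^ (-w) := by positivity
    calc |(v'.2 : ℝ) * lin θ t v - v.2 * lin θ t v'|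
        ≤ |(v'.2 : ℝ) * lin θ t v| + |(v.2 : ℝ) * lin θ t v'| := abs_sub _ _
      _ ≤ h' * h ^ (-w) + h * h' ^ (-w) := by
          rw [abs_mul, abs_mul]
          gcongr
      _ ≤ h' * h ^ (-w) + h' * h ^ (-w) := by gcongr
      _ = _ := by ring
  -- conclusion
  have hA : (2 * (h * h')) ^ μ = 2 ^ μ * (h ^ μ * h' ^ μ) := by
    rw [Real.mul_rpow (by norm_num) (by positivity), Real.mul_rpow hh0.le hh0'.le]
  have h6 : c ≤ 2 ^ (μ + 1) * (h ^ (μ - w) * h' ^ (μ + 1)) := by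
    calc c ≤ (2 * (h * h')) ^ μ * |∑ i, (a i : ℝ) * θ i| := hm
      _ ≤ (2 * (h * h')) ^ μ * (2 * (h' * h ^ (-w))) := by gcongr
      _ = _ := by
          rw [hA, Real.rpow_add (by norm_num : (0 : ℝ) < 2), Real.rpow_one,
            show μ - w = μ + -w by ring, Real.rpow_add hh0, Real.rpow_add hh0', Real.rpow_one]
          ring
  have h7 : c / 2 ^ (μ + 1) * h ^ (w - μ) ≤ h' ^ (μ + 1) := by
    have h8 : h ^ (μ - w) * h ^ (w - μ) = 1 := by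
      rw [← Real.rpow_add hh0]; simp
    have h2p : (0 : ℝ) < 2 ^ (μ + 1) := by positivity
    rw [div_mul_eq_mul_div, div_le_iff₀ h2p]
    calc c * h ^ (w - μ) ≤ (2 ^ (μ + 1) * (h ^ (μ - w) * h' ^ (μ + 1))) * h ^ (w - μ) := by gcongr
      _ = 2 ^ (μ + 1) * h' ^ (μ + 1) * (h ^ (μ - w) * h ^ (w - μ)) := by ring
      _ = _ := by rw [h8]; ring
  have h8 : (c / 2 ^ (μ + 1) * h ^ (w - μ)) ^ (1 / (μ + 1)) ≤ (h' ^ (μ + 1)) ^ (1 / (μ + 1)) :=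
    Real.rpow_le_rpow (by positivity) h7 (by positivity)
  rw [Real.mul_rpow (by positivity) (by positivity), ← Real.rpow_mul hh0.le,
    ← Real.rpow_mul hh0'.le, mul_one_div, mul_one_div, div_self hμ1.ne', Real.rpow_one] at h8
  exact h8

end Pool.Agent.TH647.NR
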