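import Pool.Agent.W472.AC.EMeas2

/-!
# Simultaneous approximation of pairs of `t + e`, `t - e`, `t e`, `t / e`: lower bounds
-/

set_option autoImplicit false

namespace Pool.Agent.TH647.NR

open Real Pool.Agent.W472.AC

lemma meas1 (k : ℤ) (hk : 0 < k) (ε : ℝ) (hε : 0 < ε) : ∃ c : ℝ, 0 < c ∧ ∀ a b : ℤ, (a ≠ 0 ∨ b ≠ 0) →
    ∀ H : ℝ, 1 ≤ H → |(a : ℝ)| ≤ H → |(b : ℝ)| ≤ H → c * H ^ (-(1 + ε)) ≤ |a + b * exp k| := by
  obtain ⟨c, hc, hm⟩ := e_meas 1 ![0, k] (by
    intro i j h
    fin_cases i <;> fin_cases j <;> simp_all [hk.ne']) (by simp) (by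
    intro i
    fin_cases i <;> simp [hk.le]) ε hε
  refine ⟨c, hc, fun a b hab H hH ha hb => ?_⟩
  have h1 := hm ![a, b] (by
    intro h
    have h0 := congrFun h 0
    have h1 := congrFun h 1
    simp at h0 h1
    rcases hab with h | h
    · exact h h0
    · exact h h1) H hH (by
    intro i
    fin_cases i
    · exact ha
    · exact hb)
  rw [Fin.sum_univ_two] at h1
  simp only [Matrix.cons_val_zero, Matrix.cons_val_one, Int.cast_zero, Real.exp_zero, mul_one] at h1
  have hH0 : 0 < H := by linarith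
  have h2 : H ^ (-(1 + ε)) * H ^ (((1 : ℕ) : ℝ) + ε) = 1 := by
    rw [← Real.rpow_add hH0]
    push_cast
    simp
  calc c * H ^ (-(1 + ε)) ≤ (H ^ (((1 : ℕ) : ℝ) + ε) * |a + b * exp k|) * H ^ (-(1 + ε)) := by
        gcongr
    _ = (H ^ (-(1 + ε)) * H ^ (((1 : ℕ) : ℝ) + ε)) * |a + b * exp k| := by ring
    _ = _ := by rw [h2, one_mul]

lemma meas2 (ε : ℝ) (hε : 0 < ε) : ∃ c : ℝ, 0 < c ∧ ∀ a b d : ℤ, (a ≠ 0 ∨ b ≠ 0 ∨ d ≠ 0) →
    ∀ H : ℝ, 1 ≤ H → |(a : ℝ)| ≤ H → |(b : ℝ)| ≤ H → |(d : ℝ)| ≤ H →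
      c * H ^ (-(2 + ε)) ≤ |a + b * exp 1 + d * exp 1 ^ 2| := by
  obtain ⟨c, hc, hm⟩ := e_meas 2 ![0, 1, 2] (by
    intro i j h
    fin_cases i <;> fin_cases j <;> simp_all) (by simp) (by
    intro i
    fin_cases i <;> simp) ε hε
  refine ⟨c, hc, fun a b d hab H hH ha hb hd => ?_⟩
  have h1 := hm ![a, b, d] (by
    intro h
    have h0 := congrFun h 0
    have h1 := congrFun h 1
    have h2 := congrFun h 2
    simp at h0 h1 h2
    rcases hab with h | h | h
    · exact h h0
    · exact h h1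
    · exact h h2) H hH (by
    intro i
    fin_cases i
    · exact ha
    · exact hb
    · exact hd)
  rw [Fin.sum_univ_three] at h1
  have e2 : exp 1 ^ 2 = exp 2 := by rw [← Real.exp_nat_mul]; norm_num
  simp only [Matrix.cons_val_zero, Matrix.cons_val_one, Int.cast_zero, Real.exp_zero, mul_one,
    Matrix.cons_val, Int.cast_one, Int.cast_ofNat] at h1
  rw [← e2] at h1
  have hH0 : 0 < H := by linarith
  have h2 : H ^ (-(2 + ε)) * H ^ (((2 : ℕ) : ℝ) + ε) = 1 := by
    rw [← Real.rpow_add hH0]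
    push_cast
    simp
  calc c * H ^ (-(2 + ε)) ≤ (H ^ (((2 : ℕ) : ℝ) + ε) * |a + b * exp 1 + d * exp 1 ^ 2|) *
        H ^ (-(2 + ε)) := by gcongr
    _ = (H ^ (-(2 + ε)) * H ^ (((2 : ℕ) : ℝ) + ε)) * |a + b * exp 1 + d * exp 1 ^ 2| := by ring
    _ = _ := by rw [h2, one_mul]

lemma e_lt3 : exp 1 < 3 := by have := Real.exp_one_lt_d9; linarith
lemma e_gt2 : 2 < exp 1 := by have := Real.exp_one_gt_d9; linarith

/-- bound for an integer close to `q x` -/
lemma near_le (q x A : ℝ) (p : ℤ) (hq : 1 ≤ q) (hx : |x| ≤ A) (h : |q * x - p| ≤ 1) :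
    |(p : ℝ)| ≤ (A + 1) * q := by
  have h1 : |(p : ℝ)| ≤ |q * x| + |q * x - p| := by
    have := abs_sub_abs_le_abs_sub (p : ℝ) (q * x)
    rw [abs_sub_comm] at this
    linarith
  rw [abs_mul, abs_of_pos (by linarith : (0 : ℝ) < q)] at h1
  nlinarith

/-- conclusion from a lower bound for an auxiliary form -/
lemma wrap (c K q M V κ : ℝ) (hc : 0 < c) (hK : 1 ≤ K) (hq : 1 ≤ q) (hκ : 0 ≤ κ)
    (h1 : c * (K * q) ^ (-κ) ≤ V) (h2 : V ≤ 10 * M) :
    c / (10 * K ^ κ) * q ^ (-κ) ≤ M := by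
  have hK0 : 0 < K := by linarith
  have hq0 : 0 < q := by linarith
  rw [Real.mul_rpow hK0.le hq0.le, Real.rpow_neg hK0.le] at h1
  have hKκ : 0 < K ^ κ := by positivity
  have h3 : c / (10 * K ^ κ) * q ^ (-κ) = (c * ((K ^ κ)⁻¹ * q ^ (-κ))) / 10 := by
    field_simp
  rw [h3]
  linarith

/-- lower bounds for the pairs `(t + e, t - e)`, `(t + e, t / e)`, `(t e, t / e)`, `(t + e, t e)` -/
theorem pairs_low (T ε : ℝ) (hT : 1 ≤ T) (hε : 0 < ε) : ∃ c : ℝ, 0 < c ∧ c ≤ 1 ∧
    ∀ t : ℝ, |t| ≤ T → 1 / T ≤ |t| → 1 / T ≤ |t + exp 1| → ∀ q : ℕ, 1 ≤ q → ∀ p r : ℤ,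
      c * (q : ℝ) ^ (-(1 + ε)) ≤ max |q * (t + exp 1) - p| |q * (t - exp 1) - r| ∧
      c * (q : ℝ) ^ (-(1 + ε)) ≤ max |q * (t + exp 1) - p| |q * (t / exp 1) - r| ∧
      c * (q : ℝ) ^ (-(1 + ε)) ≤ max |q * (t * exp 1) - p| |q * (t / exp 1) - r| ∧
      c * (q : ℝ) ^ (-(2 + ε)) ≤ max |q * (t + exp 1) - p| |q * (t * exp 1) - r| := by
  obtain ⟨c₁, hc₁, hm₁⟩ := meas1 1 one_pos ε hε
  obtain ⟨c₂, hc₂, hm₂⟩ := meas1 2 two_pos ε hε
  obtain ⟨c₃, hc₃, hm₃⟩ := meas2 ε hε
  simp only [Int.cast_one, Int.cast_ofNat] at hm₁ hm₂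
  have he3 := e_lt3
  have he2 := e_gt2
  have hee : exp 1 ^ 2 = exp 2 := by rw [← Real.exp_nat_mul]; norm_num
  have he9 : exp 2 < 9 := by rw [← hee]; nlinarith
  obtain ⟨K, hK⟩ : ∃ K : ℝ, K = 2 * (3 * T + 4) := ⟨_, rfl⟩
  have hK1 : 1 ≤ K := by rw [hK]; linarith
  have hKκ : ∀ κ : ℝ, 0 < K ^ κ := fun κ => by positivity
  obtain ⟨c, hc⟩ : ∃ c : ℝ, c = min (min (c₁ / (10 * K ^ (1 + ε))) (c₂ / (10 * K ^ (1 + ε))))
      (min (c₃ / (10 * K ^ (2 + ε))) (1 / (3 * T))) := ⟨_, rfl⟩
  have hcc1 : c ≤ c₁ / (10 * K ^ (1 + ε)) := by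
    rw [hc]; exact (min_le_left _ _).trans (min_le_left _ _)
  have hcc2 : c ≤ c₂ / (10 * K ^ (1 + ε)) := by
    rw [hc]; exact (min_le_left _ _).trans (min_le_right _ _)
  have hcc3 : c ≤ c₃ / (10 * K ^ (2 + ε)) := by
    rw [hc]; exact (min_le_right _ _).trans (min_le_left _ _)
  have hccT : c ≤ 1 / (3 * T) := by
    rw [hc]; exact (min_le_right _ _).trans (min_le_right _ _)
  have hc0 : 0 < c := by rw [hc]; positivity
  have hc1 : c ≤ 1 := by
    refine hccT.trans ?_
    rw [div_le_one (by positivity)]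
    linarith
  refine ⟨c, hc0, hc1, fun t ht ht0 hte q hq p r => ?_⟩
  have hqR : (1 : ℝ) ≤ q := by exact_mod_cast hq
  have hq0 : (0 : ℝ) < q := by linarith
  have hqκ : ∀ κ : ℝ, 0 ≤ κ → (q : ℝ) ^ (-κ) ≤ 1 := fun κ hκ =>
    Real.rpow_le_one_of_one_le_of_nonpos hqR (by linarith)
  have hqκ0 : ∀ κ : ℝ, 0 < (q : ℝ) ^ (-κ) := fun κ => by positivity
  -- trivial case
  have big : ∀ κ M : ℝ, 0 ≤ κ → 1 / (3 * T) ≤ M → c * (q : ℝ) ^ (-κ) ≤ M := by
    intro κ M hκ hM
    have h1 := hqκ κ hκ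
    have h2 := hqκ0 κ
    nlinarith
  have hone : 1 / (3 * T) ≤ 1 := by
    rw [div_le_one (by positivity)]; linarith
  have bnd : ∀ (x : ℝ) (m : ℤ), |x| ≤ 3 * T + 3 → |q * x - m| ≤ 1 → |(m : ℝ)| ≤ (3 * T + 4) * q := by
    intro x m hx hm
    have := near_le q x (3 * T + 3) m hqR hx hm
    linarith
  have hT1 : |t + exp 1| ≤ 3 * T + 3 := by
    have := abs_add_le t (exp 1)
    rw [abs_of_pos (Real.exp_pos 1)] at this
    linarith
  have hT2 : |t - exp 1| ≤ 3 * T + 3 := by
    have := abs_sub t (exp 1)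
    rw [abs_of_pos (Real.exp_pos 1)] at this
    linarith
  have hT3 : |t * exp 1| ≤ 3 * T + 3 := by
    rw [abs_mul, abs_of_pos (Real.exp_pos 1)]
    nlinarith [abs_nonneg t]
  have hT4 : |t / exp 1| ≤ 3 * T + 3 := by
    rw [abs_div, abs_of_pos (Real.exp_pos 1), div_le_iff₀ (Real.exp_pos 1)]
    nlinarith
  have hqK : (q : ℝ) ≤ K * q := by nlinarith
  have hKq : 1 ≤ K * (q : ℝ) := by nlinarith
  have h2q : (3 * T + 4) * (q : ℝ) + (3 * T + 4) * q = K * q := by rw [hK]; ring
  have hqR2 : |(q : ℝ)| = q := abs_of_pos hq0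
  refine ⟨?_, ?_, ?_, ?_⟩
  · -- (t + e, t - e)
    set M := max |q * (t + exp 1) - p| |q * (t - exp 1) - r| with hM
    have hMp : |q * (t + exp 1) - p| ≤ M := le_max_left _ _
    have hMr : |q * (t - exp 1) - r| ≤ M := le_max_right _ _
    rcases le_total 1 M with h1 | h1
    · exact big _ _ (by linarith) (hone.trans h1)
    · have hp := bnd _ p hT1 (hMp.trans h1)
      have hr := bnd _ r hT2 (hMr.trans h1)
      have h2 := hm₁ (-(p - r)) (2 * q) (Or.inr (by positivity)) (K * q) hKq (by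
        push_cast
        rw [abs_neg]
        refine (abs_sub _ _).trans ?_
        linarith) (by
        push_cast
        rw [abs_of_pos (by positivity)]
        rw [hK]
        nlinarith)
      have h3 : |((-(p - r) : ℤ) : ℝ) + ((2 * q : ℤ) : ℝ) * exp 1| ≤ 10 * M := by
        have e1 : ((-(p - r) : ℤ) : ℝ) + ((2 * q : ℤ) : ℝ) * exp 1 =
            (q * (t + exp 1) - p) - (q * (t - exp 1) - r) := by
          push_cast; ring
        rw [e1]
        refine (abs_sub _ _).trans ?_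
        have : 0 ≤ M := (abs_nonneg _).trans hMp
        linarith
      refine le_trans ?_ (wrap c₁ K q M _ (1 + ε) hc₁ hK1 hqR (by linarith) h2 h3)
      gcongr
  · -- (t + e, t / e)
    set M := max |q * (t + exp 1) - p| |q * (t / exp 1) - r| with hM
    have hMp : |q * (t + exp 1) - p| ≤ M := le_max_left _ _
    have hMr : |q * (t / exp 1) - r| ≤ M := le_max_right _ _
    have hM0 : 0 ≤ M := (abs_nonneg _).trans hMp
    rcases le_total 1 M with h1 | h1
    · exact big _ _ (by linarith) (hone.trans h1)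
    · have hp := bnd _ p hT1 (hMp.trans h1)
      have hr := bnd _ r hT4 (hMr.trans h1)
      by_cases hdeg : (q : ℤ) + r = 0
      · apply big _ _ (by linarith)
        refine le_trans ?_ hMr
        have hrq : (r : ℝ) = -(q : ℝ) := by
          have : r = -(q : ℤ) := by linarith
          exact_mod_cast this
        have e1 : (q : ℝ) * (t / exp 1) - r = q * ((t + exp 1) / exp 1) := by
          rw [hrq]
          field_simp
          ring
        rw [e1, abs_mul, hqR2, abs_div, abs_of_pos (Real.exp_pos 1)]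
        have h4 : 1 / (3 * T) ≤ |t + exp 1| / exp 1 := by
          rw [div_le_div_iff₀ (by positivity) (Real.exp_pos 1)]
          rw [div_le_iff₀ (by positivity)] at hte
          nlinarith [abs_nonneg (t + exp 1)]
        have h5 : 0 ≤ |t + exp 1| / exp 1 := by positivity
        nlinarith
      · have h2 := hm₁ (-p) (q + r) (Or.inr hdeg) (K * q) hKq (by
          push_cast
          rw [abs_neg]
          have : 0 < (3 * T + 4) * (q : ℝ) := by positivity
          linarith) (by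
          push_cast
          refine (abs_add_le _ _).trans ?_
          rw [hqR2]
          nlinarith)
        have h3 : |((-p : ℤ) : ℝ) + ((q + r : ℤ) : ℝ) * exp 1| ≤ 10 * M := by
          have e1 : ((-p : ℤ) : ℝ) + ((q + r : ℤ) : ℝ) * exp 1 =
              (q * (t + exp 1) - p) - exp 1 * (q * (t / exp 1) - r) := by
            push_cast
            field_simp
            ring
          rw [e1]
          refine (abs_sub _ _).trans ?_
          rw [abs_mul, abs_of_pos (Real.exp_pos 1)]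
          nlinarith [abs_nonneg (q * (t / exp 1) - r)]
        refine le_trans ?_ (wrap c₁ K q M _ (1 + ε) hc₁ hK1 hqR (by linarith) h2 h3)
        gcongr
  · -- (t e, t / e)
    set M := max |q * (t * exp 1) - p| |q * (t / exp 1) - r| with hM
    have hMp : |q * (t * exp 1) - p| ≤ M := le_max_left _ _
    have hMr : |q * (t / exp 1) - r| ≤ M := le_max_right _ _
    have hM0 : 0 ≤ M := (abs_nonneg _).trans hMp
    rcases le_total 1 M with h1 | h1
    · exact big _ _ (by linarith) (hone.trans h1)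
    · have hp := bnd _ p hT3 (hMp.trans h1)
      have hr := bnd _ r hT4 (hMr.trans h1)
      by_cases hdeg : r = 0
      · apply big _ _ (by linarith)
        refine le_trans ?_ hMr
        rw [hdeg, Int.cast_zero, sub_zero, abs_mul, hqR2, abs_div, abs_of_pos (Real.exp_pos 1)]
        have h4 : 1 / (3 * T) ≤ |t| / exp 1 := by
          rw [div_le_div_iff₀ (by positivity) (Real.exp_pos 1)]
          rw [div_le_iff₀ (by positivity)] at ht0
          nlinarith [abs_nonneg t]
        have h5 : 0 ≤ |t| / exp 1 := by positivity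
        nlinarith
      · have h2 := hm₂ (-p) r (Or.inr hdeg) (K * q) hKq (by
          push_cast
          rw [abs_neg]
          have : 0 < (3 * T + 4) * (q : ℝ) := by positivity
          linarith) (by
          have : 0 < (3 * T + 4) * (q : ℝ) := by positivity
          linarith)
        have h3 : |((-p : ℤ) : ℝ) + (r : ℝ) * exp 2| ≤ 10 * M := by
          have e1 : ((-p : ℤ) : ℝ) + (r : ℝ) * exp 2 =
              (q * (t * exp 1) - p) - exp 2 * (q * (t / exp 1) - r) := by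
            rw [← hee]
            push_cast
            field_simp
            ring
          rw [e1]
          refine (abs_sub _ _).trans ?_
          rw [abs_mul, abs_of_pos (Real.exp_pos 2)]
          nlinarith [abs_nonneg (q * (t / exp 1) - r)]
        refine le_trans ?_ (wrap c₂ K q M _ (1 + ε) hc₂ hK1 hqR (by linarith) h2 h3)
        gcongr
  · -- (t + e, t e)
    set M := max |q * (t + exp 1) - p| |q * (t * exp 1) - r| with hM
    have hMp : |q * (t + exp 1) - p| ≤ M := le_max_left _ _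
    have hMr : |q * (t * exp 1) - r| ≤ M := le_max_right _ _
    have hM0 : 0 ≤ M := (abs_nonneg _).trans hMp
    rcases le_total 1 M with h1 | h1
    · exact big _ _ (by linarith) (hone.trans h1)
    · have hp := bnd _ p hT1 (hMp.trans h1)
      have hr := bnd _ r hT3 (hMr.trans h1)
      have hpos : 0 < (3 * T + 4) * (q : ℝ) := by positivity
      have h2 := hm₃ r (-p) q (Or.inr (Or.inr (by positivity))) (K * q) hKq (by linarith) (by
          push_cast
          rw [abs_neg]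
          linarith) (by
          rw [Int.cast_natCast, hqR2]
          exact hqK)
      have h3 : |(r : ℝ) + ((-p : ℤ) : ℝ) * exp 1 + ((q : ℤ) : ℝ) * exp 1 ^ 2| ≤ 10 * M := by
        have e1 : (r : ℝ) + ((-p : ℤ) : ℝ) * exp 1 + ((q : ℤ) : ℝ) * exp 1 ^ 2 =
            exp 1 * (q * (t + exp 1) - p) - (q * (t * exp 1) - r) := by
          push_cast
          ring
        rw [e1]
        refine (abs_sub _ _).trans ?_
        rw [abs_mul, abs_of_pos (Real.exp_pos 1)]
        nlinarith [abs_nonneg (q * (t + exp 1) - p)]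
      refine le_trans ?_ (wrap c₃ K q M _ (2 + ε) hc₃ hK1 hqR (by linarith) h2 h3)
      gcongr

end Pool.Agent.TH647.NR
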