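import Pool.Agent.TH647.NR.PairsA
import Pool.Agent.TH647.NR.Sharp2

/-!
# Simultaneous approximation of pairs of `t + e`, `t - e`, `t e`, `t / e`: sharpness
-/

set_option autoImplicit false

namespace Pool.Agent.TH647.NR

open Real Filter

lemma dir {ξ : ℝ} (hξ : Irrational ξ) (n : ℕ) : ∃ (q : ℕ) (m : ℤ), n ≤ q ∧ 1 ≤ q ∧
    |q * ξ - m| < 1 / q := by
  obtain ⟨x, hx, h⟩ := exists_rat_large hξ n
  refine ⟨x.den, x.num, hx, x.pos, ?_⟩
  have hd : (0 : ℝ) < x.den := by exact_mod_cast x.pos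
  have h1 : (x : ℝ) * x.den = x.num := by
    have := Rat.mul_den_eq_num x
    exact_mod_cast this
  have h2 : (x.den : ℝ) * ξ - x.num = x.den * (ξ - x) := by rw [← h1]; ring
  rw [h2, abs_mul, abs_of_pos hd]
  calc (x.den : ℝ) * |ξ - x| < x.den * (1 / (x.den : ℝ) ^ 2) := by gcongr
    _ = 1 / x.den := by field_simp

lemma meas_irr (k : ℤ) (hk : 0 < k) : Irrational (exp k) := by
  rintro ⟨x, hx⟩
  obtain ⟨c, hc, hm⟩ := meas1 k hk 1 one_pos
  have hd : (x.den : ℝ) ≠ 0 := by exact_mod_cast x.den_nz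
  have h1 := hm (-x.num) x.den (Or.inr (by exact_mod_cast x.den_nz))
    (max 1 (max |((-x.num : ℤ) : ℝ)| |((x.den : ℤ) : ℝ)|)) (le_max_left _ _)
    ((le_max_left _ _).trans (le_max_right _ _)) ((le_max_right _ _).trans (le_max_right _ _))
  have h2 : ((-x.num : ℤ) : ℝ) + ((x.den : ℤ) : ℝ) * exp k = 0 := by
    rw [← hx, Rat.cast_def]
    push_cast
    field_simp
    ring
  rw [h2, abs_zero] at h1
  have : 0 < c * (max 1 (max |((-x.num : ℤ) : ℝ)| |((x.den : ℤ) : ℝ)|)) ^ (-(1 + (1 : ℝ))) := by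
    positivity
  linarith

/-- pair `(t + e, t - e)` -/
lemma dens1 (τ η δ : ℝ) (hη : 0 < η) (hδ : 0 < δ) (n : ℕ) : ∃ t : ℝ, |t - τ| < η ∧ ∃ q : ℕ, n ≤ q ∧
    ∃ p r : ℤ, max |q * (t + exp 1) - p| |q * (t - exp 1) - r| < (q : ℝ) ^ (-1 + δ) := by
  have hirr : Irrational (2 * exp 1) := by
    have h := meas_irr 1 one_pos
    rw [Int.cast_one] at h
    have h2 := h.ratCast_mul (q := 2) (by norm_num)
    simpa using h2
  obtain ⟨a, ha⟩ := exists_nat_gt (1 / η)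
  obtain ⟨q, m, hq, hq1, hqm⟩ := dir hirr (max n a)
  have hqR : (1 : ℝ) ≤ q := by exact_mod_cast hq1
  have hq0 : (0 : ℝ) < q := by linarith
  have hqη : 1 / (q : ℝ) < η := by
    have h1 : (a : ℝ) ≤ q := by exact_mod_cast (le_max_right _ _).trans hq
    rw [div_lt_iff₀ hq0]
    rw [div_lt_iff₀ hη] at ha
    nlinarith
  have hpow : 1 / (q : ℝ) ≤ (q : ℝ) ^ (-1 + δ) := by
    rw [one_div, ← Real.rpow_neg_one]
    exact Real.rpow_le_rpow_of_exponent_le hqR (by linarith)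
  obtain ⟨p, hp⟩ : ∃ p : ℤ, p = round (q * (τ + exp 1)) := ⟨_, rfl⟩
  refine ⟨p / q - exp 1, ?_, q, (le_max_left _ _).trans hq, p, p - m, ?_⟩
  · have h1 : |q * (τ + exp 1) - p| ≤ 1 / 2 := by rw [hp]; exact abs_sub_round _
    have h2 : (p : ℝ) / q - exp 1 - τ = -(q * (τ + exp 1) - p) / q := by
      field_simp
      ring
    rw [h2, abs_div, abs_neg, abs_of_pos hq0]
    calc |q * (τ + exp 1) - p| / q ≤ 1 / q := by gcongr; linarith
      _ < η := hqη
  · have e1 : (q : ℝ) * (p / q - exp 1 + exp 1) - p = 0 := by field_simp; ring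
    have e2 : (q : ℝ) * (p / q - exp 1 - exp 1) - ((p - m : ℤ) : ℝ) = -(q * (2 * exp 1) - m) := by
      push_cast
      field_simp
      ring
    rw [e1, e2, abs_zero, abs_neg]
    refine max_lt ?_ (hqm.trans_le hpow)
    positivity

/-- a number `e k / q` close to `β` with `k ξ` close to an integer -/
lemma dens2 {ξ : ℝ} (hξ : Irrational ξ) (β η δ : ℝ) (hβ : β ≠ 0) (hη : 0 < η) (hδ : 0 < δ) (n : ℕ) :
    ∃ (q : ℕ) (k m : ℤ), n ≤ q ∧ 1 ≤ q ∧ |exp 1 * k / q - β| < η ∧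
      |k * ξ - m| < (q : ℝ) ^ (-1 + δ) := by
  have hβ0 : 0 < |β| := abs_pos.2 hβ
  have he : 0 < exp 1 := Real.exp_pos 1
  obtain ⟨C, hC⟩ : ∃ C : ℝ, C = exp 1 / |β| + 1 := ⟨_, rfl⟩
  have hC0 : 0 < C := by rw [hC]; positivity
  obtain ⟨Q₀, hQ₀⟩ := eventually_atTop.1 ((tendsto_rpow_atTop hδ).eventually_gt_atTop C)
  obtain ⟨d₀, hd₀⟩ := exists_nat_ge ((max (max (n : ℝ) 1) (max (|β| / η + 1) Q₀)) * |β| / exp 1)
  obtain ⟨d, m₀, hd, hd1, hdm⟩ := dir hξ d₀
  have hdR : (1 : ℝ) ≤ d := by exact_mod_cast hd1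
  obtain ⟨q, hq⟩ : ∃ q : ℕ, q = ⌈exp 1 * d / |β|⌉₊ := ⟨_, rfl⟩
  have hq1 : exp 1 * d / |β| ≤ q := by rw [hq]; exact Nat.le_ceil _
  have hq2 : (q : ℝ) < exp 1 * d / |β| + 1 := by
    rw [hq]; exact Nat.ceil_lt_add_one (by positivity)
  have hbig : max (max (n : ℝ) 1) (max (|β| / η + 1) Q₀) ≤ q := by
    refine le_trans ?_ hq1
    rw [le_div_iff₀ hβ0]
    have h1 : (max (max (n : ℝ) 1) (max (|β| / η + 1) Q₀)) * |β| / exp 1 ≤ d :=
      hd₀.trans (by exact_mod_cast hd)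
    rw [div_le_iff₀ he] at h1
    linarith
  have hqn : (n : ℝ) ≤ q := ((le_max_left _ _).trans (le_max_left _ _)).trans hbig
  have hqR : (1 : ℝ) ≤ q := ((le_max_right _ _).trans (le_max_left _ _)).trans hbig
  have hqη : |β| / η + 1 ≤ q := ((le_max_left _ _).trans (le_max_right _ _)).trans hbig
  have hqQ : Q₀ ≤ (q : ℝ) := ((le_max_right _ _).trans (le_max_right _ _)).trans hbig
  have hq0 : (0 : ℝ) < q := by linarith
  have hCq : C < (q : ℝ) ^ δ := hQ₀ q hqQ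
  -- the sign
  obtain ⟨s, hs, hsβ⟩ : ∃ s : ℤ, (s = 1 ∨ s = -1) ∧ (s : ℝ) * |β| = β := by
    rcases le_total 0 β with h | h
    · exact ⟨1, Or.inl rfl, by rw [abs_of_nonneg h]; simp⟩
    · exact ⟨-1, Or.inr rfl, by rw [abs_of_nonpos h]; push_cast; ring⟩
  have hs1 : |(s : ℝ)| = 1 := by
    rcases hs with h | h <;> rw [h] <;> simp
  refine ⟨q, s * d, s * m₀, by exact_mod_cast hqn, by exact_mod_cast hqR, ?_, ?_⟩
  · have e1 : exp 1 * ((s * d : ℤ) : ℝ) / q - β = s * (exp 1 * d / q - |β|) := by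
      rw [mul_sub, hsβ]
      push_cast
      ring
    rw [e1, abs_mul, hs1, one_mul, abs_sub_comm, abs_of_nonneg]
    · rw [sub_lt_iff_lt_add, ← sub_lt_iff_lt_add']
      have h1 : |β| * q < exp 1 * d + |β| := by
        have h2 := mul_lt_mul_of_pos_left hq2 hβ0
        have h3 : |β| * (exp 1 * d / |β| + 1) = exp 1 * d + |β| := by
          field_simp
        linarith
      have h4 : |β| < η * q := by
        have : |β| / η < q := by linarith
        rw [div_lt_iff₀ hη] at this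
        linarith
      rw [lt_div_iff₀ hq0]
      nlinarith
    · rw [sub_nonneg, div_le_iff₀ hq0]
      rw [div_le_iff₀ hβ0] at hq1
      linarith
  · have e1 : ((s * d : ℤ) : ℝ) * ξ - ((s * m₀ : ℤ) : ℝ) = s * (d * ξ - m₀) := by
      push_cast; ring
    rw [e1, abs_mul, hs1, one_mul]
    refine hdm.trans_le ?_
    rw [Real.rpow_add hq0, Real.rpow_neg_one]
    have h1 : (q : ℝ) ≤ C * d := by
      have : exp 1 * d / |β| + 1 ≤ C * d := by
        rw [hC, add_mul, one_mul]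
        have : exp 1 * d / |β| = exp 1 / |β| * d := by ring
        linarith
      linarith
    rw [div_le_iff₀ (by linarith)]
    have h2 : 0 < (q : ℝ)⁻¹ := by positivity
    have h3 : (q : ℝ)⁻¹ * q = 1 := inv_mul_cancel₀ hq0.ne'
    calc (1 : ℝ) = (q : ℝ)⁻¹ * q := h3.symm
      _ ≤ (q : ℝ)⁻¹ * (C * d) := by gcongr
      _ ≤ (q : ℝ)⁻¹ * (q : ℝ) ^ δ * d := by
          rw [mul_assoc]
          gcongr

/-- pair `(t + e, t e)` -/
lemma dens3 (s η δ : ℝ) (hη : 0 < η) (hδ : 0 < δ) (hδ1 : δ ≤ 1) (n : ℕ) :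
    ∃ (q : ℕ) (p r : ℤ), n ≤ q ∧ 1 ≤ q ∧ |(p : ℝ) / q - s| < η ∧
      |p * exp 1 - q * exp 1 ^ 2 - r| < (q : ℝ) ^ (-2 + δ) := by
  have he3 := e_lt3
  have he0 : 0 < exp 1 := Real.exp_pos 1
  have he9 : exp 1 ^ 2 < 9 := by nlinarith
  have he20 : 0 < exp 1 ^ 2 := by positivity
  obtain ⟨c, hc, hm⟩ := meas2 (δ / 4) (by positivity)
  obtain ⟨A, hA⟩ : ∃ A : ℝ, A = 3 * |s| + 16 := ⟨_, rfl⟩
  have hA16 : 16 ≤ A := by rw [hA]; linarith [abs_nonneg s]
  -- conditions on `H`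
  have t1 := tendsto_rpow_atTop (show 0 < δ / 4 by positivity)
  have t2 := tendsto_rpow_atTop (show 0 < 1 - 3 / 4 * δ by linarith)
  have e1 := t1.eventually_gt_atTop ((2 * A) ^ (2 + δ / 4) / c)
  have e2 := t2.eventually_ge_atTop (max (n : ℝ) 1)
  have e3 := t1.eventually_gt_atTop (2 / η)
  obtain ⟨H₀, hH₀⟩ := eventually_atTop.1 ((e1.and e2).and e3)
  obtain ⟨H, hH⟩ := exists_nat_ge (max H₀ 1)
  have hHR : (1 : ℝ) ≤ H := (le_max_right _ _).trans hH
  have hH0 : (0 : ℝ) < H := by linarith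
  obtain ⟨⟨f1, f2⟩, f3⟩ := hH₀ H ((le_max_left _ _).trans hH)
  obtain ⟨J, hJ⟩ : ∃ J : ℕ, J = ⌊(H : ℝ) ^ (1 - δ)⌋₊ := ⟨_, rfl⟩
  have hL1 : 1 ≤ (H : ℝ) ^ (1 - δ) := Real.one_le_rpow hHR (by linarith)
  have hJ1 : (J : ℝ) ≤ (H : ℝ) ^ (1 - δ) := by rw [hJ]; exact Nat.floor_le (by positivity)
  have hJ2 : (H : ℝ) ^ (1 - δ) ≤ J + 1 := by rw [hJ]; exact (Nat.lt_floor_add_one _).le
  obtain ⟨B, hB⟩ : ∃ B : ℕ, B = H * (J + 1) := ⟨_, rfl⟩
  have hB0 : 0 < B := by
    rw [hB]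
    have : 0 < H := by exact_mod_cast hH0
    positivity
  have hBR : (0 : ℝ) < B := by exact_mod_cast hB0
  have hBH : (H : ℝ) ^ (2 - δ) ≤ B := by
    have : (H : ℝ) ^ (2 - δ) = H * (H : ℝ) ^ (1 - δ) := by
      rw [show (2 : ℝ) - δ = 1 + (1 - δ) by ring, Real.rpow_add hH0, Real.rpow_one]
    rw [this, hB]
    push_cast
    gcongr
  -- pigeonhole
  let P : ℕ × ℕ → ℤ := fun x => ⌊s * x.1⌋ + x.2
  let g : ℕ × ℕ → ℝ := fun x => (P x : ℝ) * exp 1 - x.1 * exp 1 ^ 2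
  let f : ℕ × ℕ → ℕ := fun x => ⌊Int.fract (g x) * B⌋₊
  have hmaps : ∀ x ∈ Finset.range (H + 1) ×ˢ Finset.range (J + 1), f x ∈ Finset.range B := by
    intro x _
    rw [Finset.mem_range]
    rw [Nat.floor_lt (by positivity)]
    have := Int.fract_lt_one (g x)
    nlinarith
  have hcard : (Finset.range B).card < (Finset.range (H + 1) ×ˢ Finset.range (J + 1)).card := by
    rw [Finset.card_product, Finset.card_range, Finset.card_range, Finset.card_range, hB]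
    nlinarith
  obtain ⟨x, hx, y, hy, hne, hxy⟩ :=
    Finset.exists_ne_map_eq_of_card_lt_of_maps_to hcard hmaps
  -- symmetric form
  have key : ∀ x y : ℕ × ℕ, x ∈ Finset.range (H + 1) ×ˢ Finset.range (J + 1) →
      y ∈ Finset.range (H + 1) ×ˢ Finset.range (J + 1) → x ≠ y → f x = f y → y.1 ≤ x.1 →
      ∃ (q : ℕ) (p r : ℤ), n ≤ q ∧ 1 ≤ q ∧ |(p : ℝ) / q - s| < η ∧
      |p * exp 1 - q * exp 1 ^ 2 - r| < (q : ℝ) ^ (-2 + δ) := by
    clear hne hxy hx hy x y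
    intro x y hx hy hne hxy hle
    rw [Finset.mem_product, Finset.mem_range, Finset.mem_range] at hx hy
    obtain ⟨q, hq⟩ : ∃ q : ℕ, q = x.1 - y.1 := ⟨_, rfl⟩
    obtain ⟨p, hp⟩ : ∃ p : ℤ, p = P x - P y := ⟨_, rfl⟩
    obtain ⟨r, hr⟩ : ∃ r : ℤ, r = ⌊g x⌋ - ⌊g y⌋ := ⟨_, rfl⟩
    have hqR : (q : ℝ) = x.1 - y.1 := by rw [hq]; push_cast [hle]; ring
    have hqH : (q : ℝ) ≤ H := by
      have : q ≤ H := by omega
      exact_mod_cast this
    have hq0 : (0 : ℝ) ≤ q := Nat.cast_nonneg _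
    have hF : |p * exp 1 - q * exp 1 ^ 2 - r| < 1 / B := by
      have e1 : (p : ℝ) * exp 1 - q * exp 1 ^ 2 - r = Int.fract (g x) - Int.fract (g y) := by
        rw [Int.fract, Int.fract, hqR, hp, hr]
        simp only [g]
        push_cast
        ring
      have h1 := Nat.floor_le (show 0 ≤ Int.fract (g x) * B by positivity)
      have h2 := Nat.lt_floor_add_one (Int.fract (g x) * B)
      have h3 := Nat.floor_le (show 0 ≤ Int.fract (g y) * B by positivity)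
      have h4 := Nat.lt_floor_add_one (Int.fract (g y) * B)
      have h5 : ((⌊Int.fract (g x) * B⌋₊ : ℕ) : ℝ) = ⌊Int.fract (g y) * B⌋₊ := by
        exact_mod_cast hxy
      rw [e1, lt_div_iff₀ hBR]
      have h6 : |Int.fract (g x) - Int.fract (g y)| * B =
          |Int.fract (g x) * B - Int.fract (g y) * B| := by
        rw [← sub_mul, abs_mul, abs_of_pos hBR]
      rw [h6, abs_lt]
      constructor <;> linarith
    have hps : |(p : ℝ) - s * q| ≤ 2 * (H : ℝ) ^ (1 - δ) := by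
      have h1 := Int.floor_le (s * x.1)
      have h2 := Int.lt_floor_add_one (s * x.1)
      have h3 := Int.floor_le (s * y.1)
      have h4 := Int.lt_floor_add_one (s * y.1)
      have h5 : (x.2 : ℝ) ≤ J := by
        have : x.2 ≤ J := by omega
        exact_mod_cast this
      have h6 : (y.2 : ℝ) ≤ J := by
        have : y.2 ≤ J := by omega
        exact_mod_cast this
      have h7 : (0 : ℝ) ≤ x.2 := Nat.cast_nonneg _
      have h8 : (0 : ℝ) ≤ y.2 := Nat.cast_nonneg _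
      have e1 : (p : ℝ) - s * q = ((⌊s * x.1⌋ : ℝ) - s * x.1) + x.2 - ((⌊s * y.1⌋ : ℝ) - s * y.1) -
          y.2 := by
        rw [hp, hqR]
        simp only [P]
        push_cast
        ring
      rw [e1, abs_le]
      constructor <;> linarith
    have hnz : r ≠ 0 ∨ p ≠ 0 ∨ (q : ℤ) ≠ 0 := by
      by_contra hcon
      push Not at hcon
      obtain ⟨-, h2, h3⟩ := hcon
      have h4 : x.1 = y.1 := by
        have : q = 0 := by exact_mod_cast h3
        omega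
      have h5 : x.2 = y.2 := by
        rw [hp] at h2
        simp only [P] at h2
        rw [h4] at h2
        have : (x.2 : ℤ) = y.2 := by linarith
        exact_mod_cast this
      exact hne (Prod.ext h4 h5)
    have hsp : |(p : ℝ)| ≤ |s| * q + 2 * (H : ℝ) ^ (1 - δ) := by
      have h1 := abs_sub_abs_le_abs_sub (p : ℝ) (s * q)
      rw [abs_mul, abs_of_nonneg hq0] at h1
      linarith
    have h1B : 1 / (B : ℝ) ≤ 1 := by
      rw [div_le_one hBR]
      exact_mod_cast hB0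
    have hrr : |(r : ℝ)| ≤ 3 * |(p : ℝ)| + 9 * q + 1 := by
      have h1 : (r : ℝ) = p * exp 1 - q * exp 1 ^ 2 - (p * exp 1 - q * exp 1 ^ 2 - r) := by ring
      have h2 : |(r : ℝ)| ≤ |p * exp 1 - q * exp 1 ^ 2| + |p * exp 1 - q * exp 1 ^ 2 - r| := by
        conv_lhs => rw [h1]
        exact abs_sub _ _
      have h3 : |p * exp 1 - q * exp 1 ^ 2| ≤ |(p : ℝ)| * exp 1 + q * exp 1 ^ 2 := by
        refine (abs_sub _ _).trans ?_
        rw [abs_mul, abs_mul, abs_of_pos he0, abs_of_pos he20, abs_of_nonneg hq0]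
      nlinarith [abs_nonneg (p : ℝ)]
    -- `q` is large
    have hbig : (H : ℝ) ^ (1 - 3 / 4 * δ) ≤ q := by
      by_contra hcon
      push Not at hcon
      have hLL : (H : ℝ) ^ (1 - δ) ≤ (H : ℝ) ^ (1 - 3 / 4 * δ) :=
        Real.rpow_le_rpow_of_exponent_le hHR (by linarith)
      obtain ⟨h, hh⟩ : ∃ h : ℝ, h = 2 * A * (H : ℝ) ^ (1 - 3 / 4 * δ) := ⟨_, rfl⟩
      have hHp : 1 ≤ (H : ℝ) ^ (1 - 3 / 4 * δ) := hL1.trans hLL
      have hs0 := abs_nonneg s
      have hpb : |(p : ℝ)| ≤ (|s| + 2) * (H : ℝ) ^ (1 - 3 / 4 * δ) := by nlinarith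
      have hrb : |(r : ℝ)| ≤ h := by
        rw [hh, hA]
        nlinarith
      have h2 := hm r (-p) q (by
        rcases hnz with h | h | h
        · exact Or.inl h
        · exact Or.inr (Or.inl (by simpa using h))
        · exact Or.inr (Or.inr h)) h (by rw [hh]; nlinarith) hrb (by
          push_cast
          rw [abs_neg, hh, hA]
          nlinarith) (by
          rw [Int.cast_natCast, abs_of_nonneg hq0, hh]
          nlinarith)
      have h3 : |(r : ℝ) + ((-p : ℤ) : ℝ) * exp 1 + ((q : ℤ) : ℝ) * exp 1 ^ 2| < 1 / B := by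
        have e1 : (r : ℝ) + ((-p : ℤ) : ℝ) * exp 1 + ((q : ℤ) : ℝ) * exp 1 ^ 2 =
            -(p * exp 1 - q * exp 1 ^ 2 - r) := by
          push_cast; ring
        rw [e1, abs_neg]
        exact hF
      have h4 : 1 / (B : ℝ) ≤ (H : ℝ) ^ (-2 + δ) := by
        rw [show -2 + δ = -(2 - δ) by ring, Real.rpow_neg hH0.le, ← one_div]
        exact one_div_le_one_div_of_le (by positivity) hBH
      have h5 : c * h ^ (-(2 + δ / 4)) < (H : ℝ) ^ (-2 + δ) := lt_of_le_of_lt h2 (h3.trans_le h4)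
      rw [hh, Real.mul_rpow (by positivity) (by positivity), ← Real.rpow_mul hH0.le] at h5
      have h6 : (H : ℝ) ^ (-(2 - 5 / 4 * δ)) ≤ (H : ℝ) ^ ((1 - 3 / 4 * δ) * -(2 + δ / 4)) :=
        Real.rpow_le_rpow_of_exponent_le hHR (by nlinarith)
      have h7 : c * ((2 * A) ^ (-(2 + δ / 4)) * (H : ℝ) ^ (-(2 - 5 / 4 * δ))) <
          (H : ℝ) ^ (-2 + δ) := by
        refine lt_of_le_of_lt ?_ h5
        gcongr
      have h8 : (H : ℝ) ^ (-(2 - 5 / 4 * δ)) = (H : ℝ) ^ (-2 + δ) * (H : ℝ) ^ (δ / 4) := by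
        rw [← Real.rpow_add hH0]; congr 1; ring
      rw [h8] at h7
      have h9 : 0 < (H : ℝ) ^ (-2 + δ) := by positivity
      have h10 : 1 < c * (2 * A) ^ (-(2 + δ / 4)) * (H : ℝ) ^ (δ / 4) := by
        have h11 : 0 < (2 * A) ^ (2 + δ / 4) := by positivity
        rw [Real.rpow_neg (by positivity)]
        rw [div_lt_iff₀ hc] at f1
        have h12 : c * ((2 * A) ^ (2 + δ / 4))⁻¹ * (H : ℝ) ^ (δ / 4) =
            ((H : ℝ) ^ (δ / 4) * c) / (2 * A) ^ (2 + δ / 4) := by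
          field_simp
        rw [h12, lt_div_iff₀ h11, one_mul]
        exact f1
      nlinarith
    have hqn : max (n : ℝ) 1 ≤ q := f2.trans hbig
    have hq1 : (1 : ℝ) ≤ q := (le_max_right _ _).trans hqn
    have hqpos : (0 : ℝ) < q := by linarith
    refine ⟨q, p, r, by exact_mod_cast (le_max_left _ _).trans hqn, by exact_mod_cast hq1, ?_, ?_⟩
    · have e1 : (p : ℝ) / q - s = (p - s * q) / q := by field_simp
      rw [e1, abs_div, abs_of_pos hqpos, div_lt_iff₀ hqpos]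
      refine lt_of_le_of_lt hps ?_
      have h1 : (H : ℝ) ^ (1 - 3 / 4 * δ) = (H : ℝ) ^ (1 - δ) * (H : ℝ) ^ (δ / 4) := by
        rw [← Real.rpow_add hH0]; congr 1; ring
      rw [div_lt_iff₀ hη] at f3
      calc 2 * (H : ℝ) ^ (1 - δ) < (H : ℝ) ^ (δ / 4) * η * (H : ℝ) ^ (1 - δ) := by
            gcongr
        _ = η * (H : ℝ) ^ (1 - 3 / 4 * δ) := by rw [h1]; ring
        _ ≤ η * q := by gcongr
    · refine lt_of_lt_of_le hF ?_
      have h4 : 1 / (B : ℝ) ≤ (H : ℝ) ^ (-2 + δ) := by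
        rw [show -2 + δ = -(2 - δ) by ring, Real.rpow_neg hH0.le, ← one_div]
        exact one_div_le_one_div_of_le (by positivity) hBH
      refine h4.trans ?_
      exact Real.rpow_le_rpow_of_nonpos hqpos hqH (by linarith)
  rcases le_total y.1 x.1 with h | h
  · exact key x y hx hy hne hxy h
  · exact key y x hy hx (Ne.symm hne) hxy.symm h

end Pool.Agent.TH647.NR
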