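import Pool.Agent.TH647.NR.PairsB

/-!
# Simultaneous approximation of pairs of `t + e`, `t - e`, `t e`, `t / e`: assembly
-/

set_option autoImplicit false

namespace Pool.Agent.TH647.NR

open Real Filter Topology

/-- the numbers `t + e`, `t - e`, `t e`, `t / e` -/
noncomputable def four (t : ℝ) : Fin 4 → ℝ := ![t + exp 1, t - exp 1, t * exp 1, t / exp 1]

/-- the exponent: `2` for the pairs `(t + e, t e)` and `(t - e, t e)`, otherwise `1` -/
def expo (i j : Fin 4) : ℝ :=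
  if (i = 2 ∧ (j = 0 ∨ j = 1)) ∨ (j = 2 ∧ (i = 0 ∨ i = 1)) then 2 else 1

/-- density of good `t` for a pair of functions -/
def Dens (f g : ℝ → ℝ) (κ : ℝ) : Prop :=
  ∃ s₀ : ℝ, ∀ τ : ℝ, τ ≠ s₀ → ∀ η : ℝ, 0 < η → ∀ δ : ℝ, 0 < δ → δ ≤ 1 → ∀ n : ℕ,
    ∃ t : ℝ, |t - τ| < η ∧ ∃ q : ℕ, n ≤ q ∧ ∃ p r : ℤ,
      max |q * f t - p| |q * g t - r| < (q : ℝ) ^ (-κ + δ)

lemma Dens.swap {f g : ℝ → ℝ} {κ : ℝ} (h : Dens f g κ) : Dens g f κ := by
  obtain ⟨s₀, h⟩ := h
  refine ⟨s₀, fun τ hτ η hη δ hδ hδ1 n => ?_⟩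
  obtain ⟨t, ht, q, hq, p, r, hm⟩ := h τ hτ η hη δ hδ hδ1 n
  exact ⟨t, ht, q, hq, r, p, by rwa [max_comm]⟩

lemma Dens.neg {f g f' g' : ℝ → ℝ} {κ : ℝ} (h : Dens f g κ) (hf : ∀ t, f' t = - f (-t))
    (hg : ∀ t, g' t = - g (-t)) : Dens f' g' κ := by
  obtain ⟨s₀, h⟩ := h
  refine ⟨-s₀, fun τ hτ η hη δ hδ hδ1 n => ?_⟩
  obtain ⟨t, ht, q, hq, p, r, hm⟩ := h (-τ) (by
    intro h1; apply hτ; rw [← h1, neg_neg]) η hη δ hδ hδ1 n
  refine ⟨-t, ?_, q, hq, -p, -r, ?_⟩
  · rw [← abs_neg]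
    rwa [show -(-t - τ) = t - -τ by ring]
  · rw [hf, hg, neg_neg]
    rw [show (q : ℝ) * -f t - ((-p : ℤ) : ℝ) = -(q * f t - p) by push_cast; ring,
      show (q : ℝ) * -g t - ((-r : ℤ) : ℝ) = -(q * g t - r) by push_cast; ring, abs_neg, abs_neg]
    exact hm

/-- from density to residual -/
lemma Dens.toResidual {f g : ℝ → ℝ} {κ : ℝ} (h : Dens f g κ) (hf : Continuous f)
    (hg : Continuous g) : ∀ᶠ t in residual ℝ, ∀ ε : ℝ, 0 < ε → ∃ᶠ q : ℕ in atTop,
      ∃ p r : ℤ, max |q * f t - p| |q * g t - r| ≤ (q : ℝ) ^ (-κ + ε) := by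
  obtain ⟨s₀, h⟩ := h
  have hmain : ∀ n : ℕ, ∀ᶠ t in residual ℝ, ∃ q : ℕ, n + 1 ≤ q ∧ ∃ p r : ℤ,
      max |q * f t - p| |q * g t - r| < (q : ℝ) ^ (-κ + 1 / ((n : ℝ) + 1)) := by
    intro n
    have hset : {t : ℝ | ∃ q : ℕ, n + 1 ≤ q ∧ ∃ p r : ℤ,
        max |q * f t - p| |q * g t - r| < (q : ℝ) ^ (-κ + 1 / ((n : ℝ) + 1))} =
        ⋃ (q : ℕ) (_ : n + 1 ≤ q) (p : ℤ) (r : ℤ),
          {t : ℝ | max |q * f t - p| |q * g t - r| < (q : ℝ) ^ (-κ + 1 / ((n : ℝ) + 1))} := by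
      ext t
      simp only [Set.mem_ofPred_eq, Set.mem_iUnion, exists_prop]
    apply residual_of_dense_open
    · show IsOpen {t : ℝ | _}
      rw [hset]
      refine isOpen_iUnion fun q => isOpen_iUnion fun _ => isOpen_iUnion fun p =>
        isOpen_iUnion fun r => ?_
      refine isOpen_lt ?_ continuous_const
      fun_prop
    · rw [Metric.dense_iff]
      intro τ η hη
      obtain ⟨τ', hτ', hne⟩ : ∃ τ' : ℝ, |τ' - τ| < η ∧ τ' ≠ s₀ := by
        by_cases hs : τ = s₀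
        · refine ⟨τ + η / 2, ?_, ?_⟩
          · rw [add_sub_cancel_left, abs_of_pos (by positivity)]; linarith
          · rw [← hs]; intro h1; linarith
        · exact ⟨τ, by simpa using hη, hs⟩
      obtain ⟨t, ht, q, hq, p, r, hm⟩ := h τ' hne (η - |τ' - τ|) (by linarith)
        (1 / ((n : ℝ) + 1)) (by positivity) (by
          rw [div_le_one (by positivity)]
          have : (0 : ℝ) ≤ n := Nat.cast_nonneg _
          linarith) (n + 1)
      refine ⟨t, ?_, q, hq, p, r, hm⟩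
      rw [Metric.mem_ball, Real.dist_eq]
      have := abs_sub_le t τ' τ
      linarith
  have hall := eventually_countable_forall.2 hmain
  filter_upwards [hall] with t htt ε hε
  rw [frequently_atTop]
  intro a
  obtain ⟨m, hm⟩ := exists_nat_gt (1 / ε)
  obtain ⟨q, hq, p, r, hpr⟩ := htt (max a m)
  have hqa : a ≤ q := by
    have := le_max_left a m
    omega
  refine ⟨q, hqa, p, r, hpr.le.trans ?_⟩
  have hq1 : (1 : ℝ) ≤ q := by
    have : 1 ≤ q := by omega
    exact_mod_cast this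
  apply Real.rpow_le_rpow_of_exponent_le hq1
  have h1 : 1 / (((max a m : ℕ) : ℝ) + 1) ≤ ε := by
    rw [div_le_iff₀ (by positivity)]
    rw [div_lt_iff₀ hε] at hm
    have h2 : (m : ℝ) ≤ ((max a m : ℕ) : ℝ) := by exact_mod_cast le_max_right a m
    nlinarith
  linarith

lemma dens01 : Dens (fun t => t + exp 1) (fun t => t - exp 1) 1 :=
  ⟨0, fun τ _ η hη δ hδ _ n => dens1 τ η δ hη hδ n⟩

lemma dens03 : Dens (fun t => t + exp 1) (fun t => t / exp 1) 1 := by
  refine ⟨-exp 1, fun τ hτ η hη δ hδ _ n => ?_⟩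
  have h1 := meas_irr 1 one_pos
  rw [Int.cast_one] at h1
  obtain ⟨q, k, m, hq, hq1, h2, h3⟩ := dens2 h1 (τ + exp 1) η δ (by
    intro h; apply hτ; linarith) hη hδ n
  have hq0 : (0 : ℝ) < q := by
    have : 0 < q := by omega
    exact_mod_cast this
  have he := Real.exp_pos 1
  refine ⟨exp 1 * k / q - exp 1, ?_, q, hq, m, k - q, ?_⟩
  · rw [show exp 1 * k / q - exp 1 - τ = exp 1 * k / q - (τ + exp 1) by ring]
    exact h2
  · rw [max_lt_iff]
    constructor
    · rw [show (q : ℝ) * (exp 1 * k / q - exp 1 + exp 1) - m = k * exp 1 - m by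
        field_simp; ring]
      exact h3
    · rw [show (q : ℝ) * ((exp 1 * k / q - exp 1) / exp 1) - ((k - q : ℤ) : ℝ) = 0 by
        push_cast; field_simp; ring, abs_zero]
      positivity

lemma dens23 : Dens (fun t => t * exp 1) (fun t => t / exp 1) 1 := by
  refine ⟨0, fun τ hτ η hη δ hδ _ n => ?_⟩
  have h1 := meas_irr 2 two_pos
  rw [Int.cast_ofNat] at h1
  obtain ⟨q, k, m, hq, hq1, h2, h3⟩ := dens2 h1 τ η δ hτ hη hδ n
  have hq0 : (0 : ℝ) < q := by
    have : 0 < q := by omega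
    exact_mod_cast this
  have he := Real.exp_pos 1
  have hee : exp 2 = exp 1 * exp 1 := by rw [← Real.exp_add]; norm_num
  refine ⟨exp 1 * k / q, h2, q, hq, m, k, ?_⟩
  rw [max_lt_iff]
  constructor
  · rw [show (q : ℝ) * (exp 1 * k / q * exp 1) - m = k * exp 2 - m by
      rw [hee]; field_simp]
    exact h3
  · rw [show (q : ℝ) * (exp 1 * k / q / exp 1) - k = 0 by field_simp; ring, abs_zero]
    positivity

lemma dens02 : Dens (fun t => t + exp 1) (fun t => t * exp 1) 2 := by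
  refine ⟨0, fun τ _ η hη δ hδ hδ1 n => ?_⟩
  obtain ⟨q, p, r, hq, hq1, h2, h3⟩ := dens3 (τ + exp 1) η δ hη hδ hδ1 n
  have hq0 : (0 : ℝ) < q := by
    have : 0 < q := by omega
    exact_mod_cast this
  refine ⟨p / q - exp 1, ?_, q, hq, p, r, ?_⟩
  · rw [show (p : ℝ) / q - exp 1 - τ = p / q - (τ + exp 1) by ring]
    exact h2
  · rw [max_lt_iff]
    constructor
    · rw [show (q : ℝ) * (p / q - exp 1 + exp 1) - p = 0 by field_simp; ring, abs_zero]
      positivity
    · rw [show (q : ℝ) * ((p / q - exp 1) * exp 1) - r = p * exp 1 - q * exp 1 ^ 2 - r by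
        field_simp]
      exact h3

lemma four_neg (t : ℝ) : four (-t) 0 = - four t 1 ∧ four (-t) 1 = - four t 0 ∧
    four (-t) 2 = - four t 2 ∧ four (-t) 3 = - four t 3 := by
  simp only [four, Matrix.cons_val]
  refine ⟨by ring, by ring, by ring, by ring⟩

lemma four_cont (i : Fin 4) : Continuous (fun t => four t i) := by
  fin_cases i <;> simp only [four, Matrix.cons_val] <;> fun_prop

lemma dens_all (i j : Fin 4) (hij : i ≠ j) :
    Dens (fun t => four t i) (fun t => four t j) (expo i j) := by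
  have h01 : Dens (fun t => four t 0) (fun t => four t 1) 1 := dens01
  have h03 : Dens (fun t => four t 0) (fun t => four t 3) 1 := dens03
  have h23 : Dens (fun t => four t 2) (fun t => four t 3) 1 := dens23
  have h02 : Dens (fun t => four t 0) (fun t => four t 2) 2 := dens02
  have h13 : Dens (fun t => four t 1) (fun t => four t 3) 1 :=
    h03.neg (fun t => by rw [(four_neg t).1, neg_neg]) (fun t => by rw [(four_neg t).2.2.2, neg_neg])
  have h12 : Dens (fun t => four t 1) (fun t => four t 2) 2 :=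
    h02.neg (fun t => by rw [(four_neg t).1, neg_neg]) (fun t => by rw [(four_neg t).2.2.1, neg_neg])
  fin_cases i <;> fin_cases j <;> first
    | exact absurd rfl hij
    | (simp only [expo, Fin.isValue, Fin.zero_eta, Fin.mk_one, Fin.reduceFinMk, Fin.reduceEq,
        zero_ne_one, one_ne_zero, or_false, or_true, false_or, true_or, and_true, true_and,
        and_false, false_and, if_true, if_false, or_self, and_self]
       first
         | exact h01
         | exact h01.swap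
         | exact h03
         | exact h03.swap
         | exact h23
         | exact h23.swap
         | exact h02
         | exact h02.swap
         | exact h13
         | exact h13.swap
         | exact h12
         | exact h12.swap)

/-- all lower bounds -/
theorem low_all (T ε : ℝ) (hT : 1 ≤ T) (hε : 0 < ε) : ∃ c : ℝ, 0 < c ∧
    ∀ t : ℝ, |t| ≤ T → 1 / T ≤ |t| → 1 / T ≤ |t + exp 1| → 1 / T ≤ |t - exp 1| →
      ∀ i j : Fin 4, i ≠ j → ∀ q : ℕ, 1 ≤ q → ∀ p r : ℤ,
        c * (q : ℝ) ^ (-(expo i j) - ε) ≤ max |q * four t i - p| |q * four t j - r| := by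
  obtain ⟨c, hc, -, h⟩ := pairs_low T ε hT hε
  refine ⟨c, hc, fun t ht ht0 htp htm i j hij q hq p r => ?_⟩
  have e1 : -(1 + ε) = -(1 : ℝ) - ε := by ring
  have e2 : -(2 + ε) = -(2 : ℝ) - ε := by ring
  rw [e1, e2] at h
  have h01 : ∀ p r : ℤ, c * (q : ℝ) ^ (-(1 : ℝ) - ε) ≤ max |q * four t 0 - p| |q * four t 1 - r| :=
    fun p r => (h t ht ht0 htp q hq p r).1
  have h03 : ∀ p r : ℤ, c * (q : ℝ) ^ (-(1 : ℝ) - ε) ≤ max |q * four t 0 - p| |q * four t 3 - r| :=
    fun p r => (h t ht ht0 htp q hq p r).2.1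
  have h23 : ∀ p r : ℤ, c * (q : ℝ) ^ (-(1 : ℝ) - ε) ≤ max |q * four t 2 - p| |q * four t 3 - r| :=
    fun p r => (h t ht ht0 htp q hq p r).2.2.1
  have h02 : ∀ p r : ℤ, c * (q : ℝ) ^ (-(2 : ℝ) - ε) ≤ max |q * four t 0 - p| |q * four t 2 - r| :=
    fun p r => (h t ht ht0 htp q hq p r).2.2.2
  have hneg := fun p r => h (-t) (by rwa [abs_neg]) (by rwa [abs_neg]) (by
    rwa [← abs_neg, show -(-t + exp 1) = t - exp 1 by ring]) q hq p r
  have aux : ∀ (x : ℝ) (p : ℤ), |(q : ℝ) * -x - ((-p : ℤ) : ℝ)| = |q * x - p| := by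
    intro x p
    rw [show (q : ℝ) * -x - ((-p : ℤ) : ℝ) = -(q * x - p) by push_cast; ring, abs_neg]
  obtain ⟨n0, -, n2, n3⟩ := four_neg t
  have h13 : ∀ p r : ℤ, c * (q : ℝ) ^ (-(1 : ℝ) - ε) ≤ max |q * four t 1 - p| |q * four t 3 - r| := by
    intro p r
    have h1 : c * (q : ℝ) ^ (-(1 : ℝ) - ε) ≤
        max |q * four (-t) 0 - ((-p : ℤ) : ℝ)| |q * four (-t) 3 - ((-r : ℤ) : ℝ)| :=
      (hneg (-p) (-r)).2.1
    rwa [n0, n3, aux, aux] at h1
  have h12 : ∀ p r : ℤ, c * (q : ℝ) ^ (-(2 : ℝ) - ε) ≤ max |q * four t 1 - p| |q * four t 2 - r| := by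
    intro p r
    have h1 : c * (q : ℝ) ^ (-(2 : ℝ) - ε) ≤
        max |q * four (-t) 0 - ((-p : ℤ) : ℝ)| |q * four (-t) 2 - ((-r : ℤ) : ℝ)| :=
      (hneg (-p) (-r)).2.2.2
    rwa [n0, n2, aux, aux] at h1
  fin_cases i <;> fin_cases j <;> first
    | exact absurd rfl hij
    | (simp only [expo, Fin.isValue, Fin.zero_eta, Fin.mk_one, Fin.reduceFinMk, Fin.reduceEq,
        zero_ne_one, one_ne_zero, or_false, or_true, false_or, true_or, and_true, true_and,
        and_false, false_and, if_true, if_false, or_self, and_self]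
       first
         | exact h01 p r
         | exact h03 p r
         | exact h23 p r
         | exact h02 p r
         | exact h13 p r
         | exact h12 p r
         | (rw [max_comm]; exact h01 r p)
         | (rw [max_comm]; exact h03 r p)
         | (rw [max_comm]; exact h23 r p)
         | (rw [max_comm]; exact h02 r p)
         | (rw [max_comm]; exact h13 r p)
         | (rw [max_comm]; exact h12 r p))

/-- if one of the four numbers is rational, the others are not well approximable -/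
theorem one_rational (t : ℝ) (ht0 : t ≠ 0) (htp : t + exp 1 ≠ 0) (htm : t - exp 1 ≠ 0)
    (i : Fin 4) (x : ℚ) (hx : four t i = x) (j : Fin 4) (hij : i ≠ j) (ε : ℝ) (hε : 0 < ε) :
    ∃ c : ℝ, 0 < c ∧ ∀ q : ℕ, 1 ≤ q → ∀ r : ℤ,
      c * (q : ℝ) ^ (-(expo i j) - ε) ≤ |q * four t j - r| := by
  obtain ⟨T, hT⟩ : ∃ T : ℝ, T = 1 + |t| + 1 / |t| + 1 / |t + exp 1| + 1 / |t - exp 1| := ⟨_, rfl⟩
  have a0 : 0 < |t| := abs_pos.2 ht0
  have a1 : 0 < |t + exp 1| := abs_pos.2 htp
  have a2 : 0 < |t - exp 1| := abs_pos.2 htm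
  have b0 : 0 < 1 / |t| := by positivity
  have b1 : 0 < 1 / |t + exp 1| := by positivity
  have b2 : 0 < 1 / |t - exp 1| := by positivity
  have hT1 : 1 ≤ T := by rw [hT]; linarith
  have hT0 : 0 < T := by linarith
  have inv : ∀ y : ℝ, 0 < y → 1 / y ≤ T → 1 / T ≤ y := by
    intro y hy h
    rw [div_le_iff₀ hT0]
    rw [div_le_iff₀ hy] at h
    linarith
  obtain ⟨c, hc, h⟩ := low_all T ε hT1 hε
  have hb : (0 : ℝ) < x.den := by exact_mod_cast x.pos
  have hb1 : (1 : ℝ) ≤ x.den := by exact_mod_cast x.pos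
  refine ⟨c * (x.den : ℝ) ^ (-(expo i j) - ε) / x.den, by positivity, fun q hq r => ?_⟩
  have h1 := h t (by rw [hT]; linarith) (inv _ a0 (by rw [hT]; linarith))
    (inv _ a1 (by rw [hT]; linarith)) (inv _ a2 (by rw [hT]; linarith)) i j hij (x.den * q)
    (Nat.one_le_iff_ne_zero.2 (Nat.mul_ne_zero x.den_nz (by omega))) (x.num * q) (x.den * r)
  have h2 : ((x.den * q : ℕ) : ℝ) * four t i - ((x.num * q : ℤ) : ℝ) = 0 := by
    rw [hx]
    have h3 : (x : ℝ) * x.den = x.num := by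
      have := Rat.mul_den_eq_num x
      exact_mod_cast this
    push_cast
    rw [← h3]
    ring
  have h4 : ((x.den * q : ℕ) : ℝ) * four t j - ((x.den * r : ℤ) : ℝ) =
      x.den * (q * four t j - r) := by
    push_cast; ring
  rw [h2, h4, abs_zero, abs_mul, abs_of_pos hb, max_eq_right (by positivity), Nat.cast_mul,
    Real.mul_rpow hb.le (Nat.cast_nonneg _)] at h1
  rw [div_mul_eq_mul_div, div_le_iff₀ hb]
  linarith

end Pool.Agent.TH647.NR
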