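import Pool.Agent.W472.AC.EMeas2
import Mathlib.NumberTheory.SiegelsLemma

/-!
# The rank of the near relations between numbers with a measure and arbitrary numbers
-/

set_option autoImplicit false

namespace Pool.Agent.TH647.NR

open Real Set Pool.Agent.W472.AC

/-- value of the form `∑ a_i θ_i + ∑ b_j t_j` -/
noncomputable def linr {m r : ℕ} (θ : Fin (m + 1) → ℝ) (t : Fin r → ℝ)
    (v : (Fin (m + 1) → ℤ) × (Fin r → ℤ)) : ℝ :=
  ∑ i, (v.1 i : ℝ) * θ i + ∑ j, (v.2 j : ℝ) * t j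

lemma norm_snd_apply_le {m r : ℕ} (v : (Fin (m + 1) → ℤ) × (Fin r → ℤ)) (j : Fin r) :
    ‖v.2 j‖ ≤ ‖v‖ := (norm_le_pi_norm v.2 j).trans (_root_.norm_snd_le v)

lemma norm_fst_apply_le {m r : ℕ} (v : (Fin (m + 1) → ℤ) × (Fin r → ℤ)) (j : Fin (m + 1)) :
    ‖v.1 j‖ ≤ ‖v‖ := (norm_le_pi_norm v.1 j).trans (_root_.norm_fst_le v)

attribute [local instance] Matrix.seminormedAddCommGroup in
/-- an integer combination without second component -/
lemma exists_comb {m r : ℕ} (X : ℝ) (hX : 1 ≤ X)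
    (v : Fin (r + 1) → (Fin (m + 1) → ℤ) × (Fin r → ℤ)) (hv : ∀ k, ‖v k‖ ≤ X) :
    ∃ l : Fin (r + 1) → ℤ, l ≠ 0 ∧ (∀ j, ∑ k, l k * (v k).2 j = 0) ∧
      ∀ k, |(l k : ℝ)| ≤ (((r + 1 : ℕ) : ℝ) * X) ^ r := by
  rcases Nat.eq_zero_or_pos r with hr | hr
  · subst hr
    refine ⟨fun _ => 1, ?_, fun j => j.elim0, fun k => by simp⟩
    intro h
    have := congrFun h 0
    simp at this
  · obtain ⟨l, hl0, hl, hb⟩ := Int.Matrix.exists_ne_zero_int_vec_norm_le
      (A := (Matrix.of fun j k => (v k).2 j : Matrix (Fin r) (Fin (r + 1)) ℤ)) (by simp) (by simpa using hr)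
    refine ⟨l, hl0, fun j => ?_, fun k => ?_⟩
    · have := congrFun hl j
      simp only [Matrix.mulVec, dotProduct, Matrix.of_apply, Pi.zero_apply] at this
      rw [← this]
      exact Finset.sum_congr rfl fun k _ => mul_comm _ _
    · have h1 : |(l k : ℝ)| ≤ ‖l‖ := norm_le_pi_norm l k
      refine h1.trans (hb.trans ?_)
      simp only [Fintype.card_fin]
      have h2 : ((r : ℝ) / (((r + 1 : ℕ) : ℝ) - r)) = r := by
        push_cast
        rw [add_sub_cancel_left, div_one]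
      rw [h2, Real.rpow_natCast]
      gcongr
      refine max_le hX ?_
      rw [Matrix.norm_le_iff (by linarith)]
      intro j k
      exact (norm_snd_apply_le (v k) j).trans (hv k)

/-- **Rank of the near relations.**  If `θ` has a measure of linear independence with exponent `μ`
then among `r + 1` linearly independent integer vectors of norm at most `X` one has a value of
absolute value `≥ c' X ^ (-(r + (r + 1) μ))`, for all `t_1, …, t_r`. -/
theorem rank_bound {m : ℕ} (θ : Fin (m + 1) → ℝ) (μ c : ℝ) (hc : 0 < c)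
    (hθ : Meas θ μ c) (r : ℕ) :
    ∃ c' : ℝ, 0 < c' ∧ ∀ (t : Fin r → ℝ) (X : ℝ), 1 ≤ X →
      ∀ v : Fin (r + 1) → (Fin (m + 1) → ℤ) × (Fin r → ℤ), LinearIndependent ℤ v →
        (∀ k, ‖v k‖ ≤ X) → ∃ k, c' * X ^ (-((r : ℝ) + (r + 1) * μ)) ≤ |linr θ t (v k)| := by
  have hR1 : (1 : ℝ) ≤ ((r + 1 : ℕ) : ℝ) := by push_cast; linarith [Nat.cast_nonneg (α := ℝ) r]
  obtain ⟨R, hR⟩ : ∃ R : ℝ, R = ((r + 1 : ℕ) : ℝ) := ⟨_, rfl⟩
  rw [← hR] at hR1
  have hR0 : 0 < R := by linarith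
  refine ⟨c / (2 * (R ^ ((r + 1 : ℝ) * μ) * (R * R ^ r))), by positivity, ?_⟩
  intro t X hX v hv hvX
  have hX0 : 0 < X := by linarith
  obtain ⟨l, hl0, hl, hlb⟩ := exists_comb X hX v hvX
  rw [← hR] at hlb
  -- the combination
  obtain ⟨a, ha⟩ : ∃ a : Fin (m + 1) → ℤ, a = fun i => ∑ k, l k * (v k).1 i := ⟨_, rfl⟩
  have ha0 : a ≠ 0 := by
    intro hcon
    apply hl0
    rw [Fintype.linearIndependent_iff] at hv
    funext k
    refine hv l ?_ k
    refine Prod.ext ?_ ?_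
    · rw [Prod.fst_sum]
      funext i
      rw [Finset.sum_apply]
      simp only [Prod.smul_fst, Pi.smul_apply, smul_eq_mul, Prod.fst_zero, Pi.zero_apply]
      have := congrFun hcon i
      rw [ha] at this
      exact this
    · rw [Prod.snd_sum]
      funext j
      rw [Finset.sum_apply]
      simp only [Prod.smul_snd, Pi.smul_apply, smul_eq_mul, Prod.snd_zero, Pi.zero_apply]
      exact hl j
  have hcast : ∀ n : ℤ, ‖n‖ = |(n : ℝ)| := fun n => rfl
  have hab : ∀ i, |(a i : ℝ)| ≤ (R * X) ^ (r + 1) := by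
    intro i
    rw [ha]
    push_cast
    calc |∑ k, (l k : ℝ) * ((v k).1 i : ℝ)| ≤ ∑ k, |(l k : ℝ) * ((v k).1 i : ℝ)| :=
          Finset.abs_sum_le_sum_abs _ _
      _ ≤ ∑ _k : Fin (r + 1), (R * X) ^ r * X := by
          refine Finset.sum_le_sum fun k _ => ?_
          rw [abs_mul]
          have h1 : |((v k).1 i : ℝ)| ≤ X := by
            rw [← hcast]
            exact (norm_fst_apply_le (v k) i).trans (hvX k)
          have h2 := hlb k
          gcongr
      _ = (R * X) ^ (r + 1) := by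
          rw [Finset.sum_const, Finset.card_univ, Fintype.card_fin, nsmul_eq_mul, ← hR]
          ring
  have hRX : 1 ≤ (R * X) ^ (r + 1) := one_le_pow₀ (by nlinarith)
  have hm := hθ a ha0 ((R * X) ^ (r + 1)) hRX hab
  have hsum : ∑ i, (a i : ℝ) * θ i = ∑ k, (l k : ℝ) * linr θ t (v k) := by
    unfold linr
    simp only [mul_add, Finset.sum_add_distrib]
    have h1 : ∑ k, (l k : ℝ) * ∑ j, ((v k).2 j : ℝ) * t j = 0 := by
      simp only [Finset.mul_sum]
      rw [Finset.sum_comm]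
      refine Finset.sum_eq_zero fun j _ => ?_
      have h2 : ∑ k, (l k : ℝ) * (((v k).2 j : ℝ) * t j) = (∑ k, (l k : ℝ) * ((v k).2 j : ℝ)) * t j := by
        rw [Finset.sum_mul]
        exact Finset.sum_congr rfl fun k _ => by ring
      rw [h2]
      have h3 := hl j
      have h4 : ∑ k, (l k : ℝ) * ((v k).2 j : ℝ) = 0 := by exact_mod_cast h3
      rw [h4, zero_mul]
    rw [h1, add_zero, ha]
    simp only [Finset.mul_sum]
    rw [Finset.sum_comm]
    refine Finset.sum_congr rfl fun i _ => ?_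
    push_cast
    rw [Finset.sum_mul]
    exact Finset.sum_congr rfl fun k _ => by ring
  by_contra hcon
  push Not at hcon
  obtain ⟨B, hB⟩ : ∃ B : ℝ, B = c / (2 * (R ^ ((r + 1 : ℝ) * μ) * (R * R ^ r))) *
    X ^ (-((r : ℝ) + (r + 1) * μ)) := ⟨_, rfl⟩
  rw [← hB] at hcon
  have hB0 : 0 < B := by rw [hB]; positivity
  have hup : |∑ i, (a i : ℝ) * θ i| ≤ R * ((R * X) ^ r * B) := by
    rw [hsum]
    calc |∑ k, (l k : ℝ) * linr θ t (v k)| ≤ ∑ k, |(l k : ℝ) * linr θ t (v k)| :=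
          Finset.abs_sum_le_sum_abs _ _
      _ ≤ ∑ _k : Fin (r + 1), (R * X) ^ r * B := by
          refine Finset.sum_le_sum fun k _ => ?_
          rw [abs_mul]
          have h2 := hlb k
          have h3 := (hcon k).le
          gcongr
      _ = _ := by
          rw [Finset.sum_const, Finset.card_univ, Fintype.card_fin, nsmul_eq_mul, ← hR]
  have hpow : ((R * X) ^ (r + 1)) ^ μ = R ^ ((r + 1 : ℝ) * μ) * X ^ ((r + 1 : ℝ) * μ) := by
    rw [← Real.rpow_natCast (R * X) (r + 1), ← Real.rpow_mul (by positivity),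
      Real.mul_rpow hR0.le hX0.le]
    push_cast
    rfl
  have h5 : c ≤ R ^ ((r + 1 : ℝ) * μ) * X ^ ((r + 1 : ℝ) * μ) * (R * ((R * X) ^ r * B)) := by
    rw [← hpow]
    refine hm.trans ?_
    gcongr
  have h6 : R ^ ((r + 1 : ℝ) * μ) * X ^ ((r + 1 : ℝ) * μ) * (R * ((R * X) ^ r * B)) = c / 2 := by
    have h7 : X ^ ((r + 1 : ℝ) * μ) * (X ^ r * X ^ (-((r : ℝ) + (r + 1) * μ))) = 1 := by
      rw [← Real.rpow_natCast X r, ← Real.rpow_add hX0, ← Real.rpow_add hX0]
      have : (r + 1 : ℝ) * μ + ((r : ℝ) + -((r : ℝ) + (r + 1) * μ)) = 0 := by ring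
      rw [this, Real.rpow_zero]
    rw [hB, mul_pow]
    calc R ^ ((r + 1 : ℝ) * μ) * X ^ ((r + 1 : ℝ) * μ) *
          (R * (R ^ r * X ^ r * (c / (2 * (R ^ ((r + 1 : ℝ) * μ) * (R * R ^ r))) *
            X ^ (-((r : ℝ) + (r + 1) * μ)))))
        = (R ^ ((r + 1 : ℝ) * μ) * (R * R ^ r)) * (c / (2 * (R ^ ((r + 1 : ℝ) * μ) * (R * R ^ r)))) *
          (X ^ ((r + 1 : ℝ) * μ) * (X ^ r * X ^ (-((r : ℝ) + (r + 1) * μ)))) := by ring
      _ = c / 2 := by
          rw [h7, mul_one]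
          field_simp
  rw [h6] at h5
  linarith

end Pool.Agent.TH647.NR
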