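import Mathlib

/-!
# Many near relations at the same scale
-/

set_option autoImplicit false

namespace Pool.Agent.TH647.NR

open Real Set Filter

lemma exists_small {ξ : ℝ} (hξ : Irrational ξ) (η : ℝ) (hη : 0 < η) :
    ∃ k l : ℤ, 0 < |(l : ℝ) * ξ - k| ∧ |(l : ℝ) * ξ - k| < η := by
  obtain ⟨n, hn⟩ := exists_nat_gt (1 / η)
  have hn0 : 0 < n := by
    have : (0 : ℝ) < n := lt_trans (by positivity) hn
    exact_mod_cast this
  obtain ⟨j, k, hk0, hkn, h⟩ := Real.exists_int_int_abs_mul_sub_le ξ hn0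
  refine ⟨j, k, ?_, ?_⟩
  · rw [abs_pos]
    intro h0
    have : ξ = (j : ℝ) / k := by
      rw [eq_div_iff (by exact_mod_cast hk0.ne')]
      linarith
    apply hξ
    rw [this]
    exact ⟨(j : ℚ) / k, by push_cast; rfl⟩
  · refine h.trans_lt ?_
    rw [div_lt_iff₀ (by positivity)]
    rw [div_lt_iff₀ hη] at hn
    nlinarith

lemma exists_bound {ξ : ℝ} (hξ : Irrational ξ) (η M : ℝ) (hη : 0 < η) (hM : 0 ≤ M) :
    ∃ B : ℝ, 1 ≤ B ∧ ∀ s : ℝ, |s| ≤ M → ∃ k l : ℤ, |(k : ℝ)| ≤ B ∧ |(l : ℝ)| ≤ B ∧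
      |k + l * ξ - s| < η := by
  obtain ⟨k₀, l₀, hd0, hd⟩ := exists_small hξ η hη
  set d : ℝ := (l₀ : ℝ) * ξ - k₀ with hdd
  have hdne : d ≠ 0 := abs_pos.1 hd0
  set J : ℝ := M / |d| + 1 with hJ
  have hJ1 : 1 ≤ J := by
    have : 0 ≤ M / |d| := by positivity
    linarith
  refine ⟨1 + J * (|(k₀ : ℝ)| + |(l₀ : ℝ)|), ?_, fun s hs => ?_⟩
  · have : 0 ≤ J * (|(k₀ : ℝ)| + |(l₀ : ℝ)|) := by positivity
    linarith
  · set j : ℤ := round (s / d) with hj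
    have hjabs : |(j : ℝ)| ≤ J := by
      have h1 : |s / d - j| ≤ 1 / 2 := abs_sub_round _
      have h2 : |s / d| ≤ M / |d| := by
        rw [abs_div]
        gcongr
      have h3 : |(j : ℝ)| ≤ |s / d| + |s / d - j| := by
        have := abs_sub_abs_le_abs_sub (j : ℝ) (s / d)
        rw [abs_sub_comm] at this
        linarith
      linarith
    refine ⟨-(j * k₀), j * l₀, ?_, ?_, ?_⟩
    · push_cast
      rw [abs_neg, abs_mul]
      have : |(j : ℝ)| * |(k₀ : ℝ)| ≤ J * |(k₀ : ℝ)| := by gcongr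
      nlinarith [abs_nonneg (k₀ : ℝ), abs_nonneg (l₀ : ℝ)]
    · push_cast
      rw [abs_mul]
      have : |(j : ℝ)| * |(l₀ : ℝ)| ≤ J * |(l₀ : ℝ)| := by gcongr
      nlinarith [abs_nonneg (k₀ : ℝ), abs_nonneg (l₀ : ℝ)]
    · have e1 : ((-(j * k₀) : ℤ) : ℝ) + ((j * l₀ : ℤ) : ℝ) * ξ - s = -(s / d - j) * d := by
        push_cast
        rw [neg_mul, sub_mul, div_mul_cancel₀ _ hdne, hdd]
        ring
      rw [e1, abs_mul, abs_neg]
      have h1 : |s / d - j| ≤ 1 / 2 := abs_sub_round _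
      nlinarith [abs_nonneg (s / d - j)]

/-- the basis of the lattice of relations of `(x, y, z)` -/
lemma construct (ξ τ η B : ℝ) (hB : 1 ≤ B)
    (h : ∀ s : ℝ, |s| ≤ |τ| + |ξ| + 2 → ∃ k l : ℤ, |(k : ℝ)| ≤ B ∧ |(l : ℝ)| ≤ B ∧
      |k + l * ξ - s| < η) (x y p : ℤ) (hx : 0 < x) (hp : 0 < p) (hxp : x ≤ p ^ 2)
    (hxy : |ξ - y / x| < 1 / (x : ℝ) ^ 2) (hBx : B / (x : ℝ) ^ 2 ≤ η) :
    ∃ a₁ b₁ a₂ b₂ z : ℤ, b₁ * (p + 1) - p * b₂ = x ∧ p * a₂ - a₁ * (p + 1) = y ∧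
      z = a₁ * b₂ - a₂ * b₁ ∧ |(z : ℝ) / x - τ| < 2 * η ∧
      |(a₁ : ℝ)| ≤ (2 * B + |ξ| + 4) * p ∧ |(b₁ : ℝ)| ≤ (2 * B + |ξ| + 4) * p ∧
      |(a₂ : ℝ)| ≤ (2 * B + |ξ| + 4) * p ∧ |(b₂ : ℝ)| ≤ (2 * B + |ξ| + 4) * p := by
  have hxR : (0 : ℝ) < x := by exact_mod_cast hx
  have hx1 : (1 : ℝ) ≤ x := by exact_mod_cast hx
  have hpR : (0 : ℝ) < p := by exact_mod_cast hp
  have hp1 : (1 : ℝ) ≤ p := by exact_mod_cast hp
  have hyx : |(y : ℝ) / x| ≤ |ξ| + 1 := by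
    have h1 : 1 / (x : ℝ) ^ 2 ≤ 1 := by
      rw [div_le_one (by positivity)]
      nlinarith
    have h2 := abs_sub_abs_le_abs_sub ((y : ℝ) / x) ξ
    rw [abs_sub_comm] at h2
    linarith
  obtain ⟨a₀, ha₀, ha00, ha0p⟩ : ∃ a₀ : ℤ, p ∣ y + a₀ ∧ 0 ≤ a₀ ∧ a₀ < p := by
    refine ⟨(-y) % p, ?_, Int.emod_nonneg _ hp.ne', Int.emod_lt_of_pos _ hp⟩
    refine ⟨-((-y) / p), ?_⟩
    have := Int.emod_add_mul_ediv (-y) p
    linarith
  obtain ⟨b₀, hb₀, hb00, hb0p⟩ : ∃ b₀ : ℤ, p ∣ b₀ - x ∧ 0 ≤ b₀ ∧ b₀ < p := by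
    refine ⟨x % p, ?_, Int.emod_nonneg _ hp.ne', Int.emod_lt_of_pos _ hp⟩
    refine ⟨-(x / p), ?_⟩
    have := Int.emod_add_mul_ediv x p
    linarith
  have ha0R : (0 : ℝ) ≤ a₀ := by exact_mod_cast ha00
  have ha0R' : (a₀ : ℝ) ≤ p := by exact_mod_cast ha0p.le
  have hb0R : (0 : ℝ) ≤ b₀ := by exact_mod_cast hb00
  have hb0R' : (b₀ : ℝ) ≤ p := by exact_mod_cast hb0p.le
  set s : ℝ := -τ - (a₀ + b₀ * (y / x)) / p with hs
  have hs1 : |s| ≤ |τ| + |ξ| + 2 := by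
    have h1 : |((a₀ : ℝ) + b₀ * (y / x)) / p| ≤ 1 + (|ξ| + 1) := by
      rw [abs_div, abs_of_pos hpR, div_le_iff₀ hpR]
      calc |(a₀ : ℝ) + b₀ * (y / x)| ≤ |(a₀ : ℝ)| + |(b₀ : ℝ) * (y / x)| := abs_add_le _ _
        _ ≤ p + p * (|ξ| + 1) := by
            rw [abs_mul, abs_of_nonneg ha0R, abs_of_nonneg hb0R]
            gcongr
        _ = _ := by ring
    have h2 : |s| ≤ |τ| + |((a₀ : ℝ) + b₀ * (y / x)) / p| := by
      have := abs_sub (-τ) (((a₀ : ℝ) + b₀ * (y / x)) / p)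
      rwa [abs_neg] at this
    linarith
  obtain ⟨k, l, hk, hl, hkl⟩ := h s hs1
  obtain ⟨u, hu⟩ := ha₀
  obtain ⟨u', hu'⟩ := hb₀
  -- a₁ = a₀ + k p, b₁ = b₀ + l p
  refine ⟨a₀ + k * p, b₀ + l * p, u + (a₀ + k * p) + k, u' + (b₀ + l * p) + l, _,
    ?_, ?_, rfl, ?_, ?_, ?_, ?_, ?_⟩
  · linear_combination hu'
  · linear_combination -hu
  · have hy : (y : ℝ) = p * u - a₀ := by
      have : y = p * u - a₀ := by linarith
      exact_mod_cast this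
    have hxx : (x : ℝ) = b₀ - p * u' := by
      have : x = b₀ - p * u' := by linarith
      exact_mod_cast this
    have hz : (((a₀ + k * p) * (u' + (b₀ + l * p) + l) - (u + (a₀ + k * p) + k) * (b₀ + l * p) : ℤ) : ℝ)
        / x = -((a₀ + k * p) + (b₀ + l * p) * (y / x)) / p := by
      rw [div_eq_div_iff hxR.ne' hpR.ne']
      have h1 : ((a₀ : ℝ) + k * p + (b₀ + l * p) * (y / x)) * x =
          (a₀ + k * p) * x + (b₀ + l * p) * y := by
        field_simp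
      have h2 : (-((a₀ : ℝ) + k * p + (b₀ + l * p) * (y / x))) * x =
          -((a₀ + k * p) * x + (b₀ + l * p) * y) := by
        rw [neg_mul, h1]
      rw [h2]
      push_cast
      rw [hy, hxx]
      ring
    rw [hz]
    have e1 : -(((a₀ : ℝ) + k * p) + (b₀ + l * p) * (y / x)) / p - τ =
        -(k + l * ξ - s) + l * (ξ - y / x) := by
      rw [hs]
      field_simp
      ring
    rw [e1]
    have h3 : |(l : ℝ) * (ξ - y / x)| ≤ η := by
      rw [abs_mul]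
      refine le_trans ?_ hBx
      have h5 : |(l : ℝ)| * |ξ - y / x| ≤ B * (1 / (x : ℝ) ^ 2) := by gcongr
      rw [mul_one_div] at h5
      exact h5
    have h4 := abs_add_le (-(k + l * ξ - s)) ((l : ℝ) * (ξ - y / x))
    rw [abs_neg] at h4
    linarith
  · push_cast
    calc |(a₀ : ℝ) + k * p| ≤ |(a₀ : ℝ)| + |(k : ℝ) * p| := abs_add_le _ _
      _ ≤ p + B * p := by
          rw [abs_mul, abs_of_nonneg ha0R, abs_of_pos hpR]
          gcongr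
      _ ≤ _ := by nlinarith [abs_nonneg ξ]
  · push_cast
    calc |(b₀ : ℝ) + l * p| ≤ |(b₀ : ℝ)| + |(l : ℝ) * p| := abs_add_le _ _
      _ ≤ p + B * p := by
          rw [abs_mul, abs_of_nonneg hb0R, abs_of_pos hpR]
          gcongr
      _ ≤ _ := by nlinarith [abs_nonneg ξ]
  · -- a₂
    have hxp' : (x : ℝ) ≤ p ^ 2 := by exact_mod_cast hxp
    have hu1 : |(u : ℝ)| ≤ (|ξ| + 1) * p + 1 := by
      have h1 : (p : ℝ) * u = y + a₀ := by exact_mod_cast hu.symm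
      have h2 : |(y : ℝ)| ≤ (|ξ| + 1) * x := by
        have h3 : (y : ℝ) = (y / x) * x := by field_simp
        rw [h3, abs_mul, abs_of_pos hxR]
        gcongr
      have h4 : p * |(u : ℝ)| ≤ p * ((|ξ| + 1) * p + 1) := by
        rw [← abs_of_pos hpR, ← abs_mul, h1, abs_of_pos hpR]
        calc |(y : ℝ) + a₀| ≤ |(y : ℝ)| + |(a₀ : ℝ)| := abs_add_le _ _
          _ ≤ (|ξ| + 1) * p ^ 2 + p := by
              rw [abs_of_nonneg ha0R]
              have : (|ξ| + 1) * (x : ℝ) ≤ (|ξ| + 1) * p ^ 2 := by gcongr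
              linarith
          _ = _ := by ring
      exact le_of_mul_le_mul_left h4 hpR
    push_cast
    calc |(u : ℝ) + (a₀ + k * p) + k| ≤ |(u : ℝ)| + |(a₀ : ℝ)| + |(k : ℝ) * p| + |(k : ℝ)| := by
          have h1 := abs_add_le ((u : ℝ) + (a₀ + k * p)) k
          have h2 := abs_add_le (u : ℝ) (a₀ + k * p)
          have h3 := abs_add_le (a₀ : ℝ) (k * p)
          linarith
      _ ≤ ((|ξ| + 1) * p + 1) + p + B * p + B := by
          rw [abs_mul, abs_of_nonneg ha0R, abs_of_pos hpR]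
          gcongr
      _ ≤ _ := by nlinarith [abs_nonneg ξ]
  · -- b₂
    have hxp' : (x : ℝ) ≤ p ^ 2 := by exact_mod_cast hxp
    have hu1 : |(u' : ℝ)| ≤ p + 1 := by
      have h1 : (p : ℝ) * u' = b₀ - x := by exact_mod_cast hu'.symm
      have h4 : p * |(u' : ℝ)| ≤ p * (p + 1) := by
        rw [← abs_of_pos hpR, ← abs_mul, h1, abs_of_pos hpR]
        calc |(b₀ : ℝ) - x| ≤ |(b₀ : ℝ)| + |(x : ℝ)| := abs_sub _ _
          _ ≤ p + p ^ 2 := by
              rw [abs_of_nonneg hb0R, abs_of_pos hxR]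
              linarith
          _ = _ := by ring
      exact le_of_mul_le_mul_left h4 hpR
    push_cast
    calc |(u' : ℝ) + (b₀ + l * p) + l| ≤ |(u' : ℝ)| + |(b₀ : ℝ)| + |(l : ℝ) * p| + |(l : ℝ)| := by
          have h1 := abs_add_le ((u' : ℝ) + (b₀ + l * p)) l
          have h2 := abs_add_le (u' : ℝ) (b₀ + l * p)
          have h3 := abs_add_le (b₀ : ℝ) (l * p)
          linarith
      _ ≤ (p + 1) + p + B * p + B := by
          rw [abs_mul, abs_of_nonneg hb0R, abs_of_pos hpR]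
          gcongr
      _ ≤ _ := by nlinarith [abs_nonneg ξ]

end Pool.Agent.TH647.NR
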