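import Pool.Agent.TH647.NR.Rank
import Pool.Agent.H103R2.LM.M
import Pool.Agent.H297R2.LPM.Main

/-!
# The measure for `1, π ^ 2, ζ(3)` in the form used here
-/

set_option autoImplicit false

namespace Pool.Agent.TH647.NR

open Pool.Agent.W472.AC

/-- linear independence measure for `1, π ^ 2, ζ(3)`, all nonzero integer vectors -/
theorem meas_pi_zeta : ∃ κ : ℝ, 0 < κ ∧ ∃ c : ℝ, 0 < c ∧
    Meas (![1, Real.pi ^ 2, ∑' n : ℕ, 1 / ((n : ℝ) + 1) ^ 3] : Fin (2 + 1) → ℝ) κ c := by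
  obtain ⟨c₁, hc₁, κ₁, hκ₁, h₁⟩ := Pool.Agent.LM.measure_d
  obtain ⟨c₂, hc₂, h₂⟩ := Pool.Agent.LP.MS.measure
  obtain ⟨K, hK⟩ : ∃ K : ℝ, K = max κ₁ 223 := ⟨_, rfl⟩
  have hK1 : κ₁ ≤ K := by rw [hK]; exact le_max_left _ _
  have hK2 : (223 : ℝ) ≤ K := by rw [hK]; exact le_max_right _ _
  have hK0 : 0 < K := by linarith
  obtain ⟨c, hc⟩ : ∃ c : ℝ, c = min (min (c₁ * 6 ^ (-κ₁)) c₂) 1 := ⟨_, rfl⟩
  have hcc1 : c ≤ c₁ * 6 ^ (-κ₁) := by rw [hc]; exact (min_le_left _ _).trans (min_le_left _ _)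
  have hcc2 : c ≤ c₂ := by rw [hc]; exact (min_le_left _ _).trans (min_le_right _ _)
  have hcc3 : c ≤ 1 := by rw [hc]; exact min_le_right _ _
  have hc0 : 0 < c := by rw [hc]; positivity
  refine ⟨K, hK0, c, hc0, ?_⟩
  intro a ha H hH hb
  have hH0 : 0 < H := by linarith
  have hval : ∑ j, (a j : ℝ) * (![1, Real.pi ^ 2, ∑' n : ℕ, 1 / ((n : ℝ) + 1) ^ 3] :
      Fin (2 + 1) → ℝ) j = a 0 + a 1 * Real.pi ^ 2 + a 2 * ∑' n : ℕ, 1 / ((n : ℝ) + 1) ^ 3 := by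
    rw [Fin.sum_univ_three]
    simp
  rw [hval]
  have key : ∀ (κ d V : ℝ), κ ≤ K → c ≤ d → d * H ^ (-κ) ≤ V → c ≤ H ^ K * V := by
    intro κ d V hκ hd hV
    have h1 : H ^ κ ≤ H ^ K := Real.rpow_le_rpow_of_exponent_le hH hκ
    have h2 : 0 < H ^ κ := by positivity
    have h3 : H ^ κ * H ^ (-κ) = 1 := by rw [← Real.rpow_add hH0]; simp
    have hd0 : 0 < d := by linarith
    have h4 : 0 < d * H ^ (-κ) := by positivity
    calc c ≤ d := hd
      _ = H ^ κ * (d * H ^ (-κ)) := by rw [mul_left_comm, h3, mul_one]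
      _ ≤ H ^ K * V := by gcongr
  by_cases h2 : a 2 = 0
  · rw [h2, Int.cast_zero, zero_mul, add_zero]
    by_cases h1 : a 1 = 0
    · have h0 : a 0 ≠ 0 := by
        intro h0
        apply ha
        funext i
        fin_cases i
        · exact h0
        · exact h1
        · exact h2
      rw [h1, Int.cast_zero, zero_mul, add_zero]
      refine key 0 1 _ hK0.le hcc3 ?_
      rw [neg_zero, Real.rpow_zero, mul_one]
      exact_mod_cast Int.one_le_abs h0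
    · have h3 := h₂ (a 0) 0 (a 1) (Or.inr h1)
      rw [Int.cast_zero, zero_mul, add_zero, abs_zero] at h3
      refine key 223 c₂ _ hK2 hcc2 (le_trans ?_ h3)
      rw [Real.rpow_neg hH0.le, show (223 : ℝ) = ((223 : ℕ) : ℝ) by norm_num, Real.rpow_natCast,
        ← div_eq_mul_inv]
      have h4 : 0 < |(a 1 : ℝ)| := by
        have : (a 1 : ℝ) ≠ 0 := by exact_mod_cast h1
        positivity
      have h5 : max 0 |(a 1 : ℝ)| = |(a 1 : ℝ)| := max_eq_right h4.le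
      rw [h5]
      gcongr
      exact hb 1
  · have h3 := h₁ (a 0) (6 * a 1) (a 2) (6 * H) (by linarith) h2 (by
      push_cast
      rw [abs_mul, abs_of_pos (by norm_num : (0 : ℝ) < 6)]
      linarith [hb 1]) (by linarith [hb 2])
    have e2 : Pool.Agent.H337R2.zr 2 = Real.pi ^ 2 / 6 := Pool.Agent.LZ.Z2_value
    have e3 : Pool.Agent.H337R2.zr 3 = ∑' n : ℕ, 1 / ((n : ℝ) + 1) ^ 3 := rfl
    rw [e2, e3, Real.mul_rpow (by norm_num) (by linarith)] at h3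
    have e4 : (a 0 : ℝ) + ((6 * a 1 : ℤ) : ℝ) * (Real.pi ^ 2 / 6) +
        a 2 * (∑' n : ℕ, 1 / ((n : ℝ) + 1) ^ 3) =
        (a 0 : ℝ) + a 1 * Real.pi ^ 2 + a 2 * (∑' n : ℕ, 1 / ((n : ℝ) + 1) ^ 3) := by
      push_cast
      ring
    rw [e4, ← mul_assoc] at h3
    exact key κ₁ _ _ hK1 hcc1 h3

end Pool.Agent.TH647.NR
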