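import Pool.Agent.TH647.NR.Rank
import Pool.Agent.H312R3.M34.Cor
import Pool.Agent.W170.Z3.Z

/-!
# The measure for `1, ζ(3), π ^ 4` with exponent `2400`, all nonzero integer vectors
-/

set_option autoImplicit false

namespace Pool.Agent.TH647.NR

open Pool.Agent.W472.AC

/-- an irrationality exponent as a measure for linear forms -/
theorem lin_of_exp (z μ : ℝ) (hμ : 1 ≤ μ) (c : ℝ) (hc : 0 < c)
    (h : ∀ (p : ℤ) (q : ℕ), 0 < q → c / (q : ℝ) ^ μ ≤ |z - (p : ℝ) / q|) :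
    ∀ (a b : ℤ), b ≠ 0 → ∀ H : ℝ, 1 ≤ H → |(b : ℝ)| ≤ H → c * H ^ (-(μ - 1)) ≤ |(a : ℝ) + b * z| := by
  intro a b hb H hH hbH
  have hq : 0 < b.natAbs := Int.natAbs_pos.2 hb
  obtain ⟨B, hB⟩ : ∃ B : ℝ, B = |(b : ℝ)| := ⟨_, rfl⟩
  have hbR : 0 < B := by
    have : (b : ℝ) ≠ 0 := by exact_mod_cast hb
    rw [hB]
    positivity
  obtain ⟨p, hp⟩ : ∃ p : ℤ, p = -a * b.sign := ⟨_, rfl⟩
  have h1 := h p b.natAbs hq
  have e1 : ((b.natAbs : ℕ) : ℝ) = B := by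
    rw [Nat.cast_natAbs, Int.cast_abs, hB]
  rw [e1] at h1
  rw [← hB] at hbH
  have e2 : B * |z - (p : ℝ) / B| = |(a : ℝ) + b * z| := by
    have e3 : B * |z - (p : ℝ) / B| = |B * z - p| := by
      rw [← abs_of_pos hbR, ← abs_mul, abs_of_pos hbR]
      congr 1
      field_simp
    rw [e3, hp, hB]
    rcases lt_or_gt_of_ne hb with hb' | hb'
    · have h2 : (b : ℝ) < 0 := by exact_mod_cast hb'
      rw [abs_of_neg h2, Int.sign_eq_neg_one_of_neg hb']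
      rw [← abs_neg]
      congr 1
      push_cast
      ring
    · have h2 : (0 : ℝ) < b := by exact_mod_cast hb'
      rw [abs_of_pos h2, Int.sign_eq_one_of_pos hb']
      congr 1
      push_cast
      ring
  rw [← e2]
  calc c * H ^ (-(μ - 1)) ≤ c * B ^ (-(μ - 1)) := by
        gcongr c * ?_
        exact Real.rpow_le_rpow_of_nonpos hbR hbH (by linarith)
    _ = B * (c / B ^ μ) := by
        have e4 : B ^ μ = B ^ (μ - 1) * B := by
          nth_rewrite 3 [← Real.rpow_one B]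
          rw [← Real.rpow_add hbR, sub_add_cancel]
        have e5 : 0 < B ^ (μ - 1) := by positivity
        rw [e4, Real.rpow_neg hbR.le]
        field_simp
    _ ≤ B * |z - (p : ℝ) / B| := by gcongr

/-- an irrationality exponent as a measure for `1, z` -/
theorem meas_of_exp (z μ : ℝ) (hμ : 1 ≤ μ) (c : ℝ) (hc : 0 < c)
    (h : ∀ (p : ℤ) (q : ℕ), 0 < q → c / (q : ℝ) ^ μ ≤ |z - (p : ℝ) / q|) :
    Meas (![1, z] : Fin (1 + 1) → ℝ) (μ - 1) (min c 1) := by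
  intro a ha H hH hb
  have hH0 : 0 < H := by linarith
  have hval : ∑ j, (a j : ℝ) * (![1, z] : Fin (1 + 1) → ℝ) j = a 0 + a 1 * z := by
    rw [Fin.sum_univ_two]
    simp
  rw [hval]
  have hp : 0 < H ^ (μ - 1) := by positivity
  by_cases h1 : a 1 = 0
  · have h0 : a 0 ≠ 0 := by
      intro h0
      apply ha
      funext i
      fin_cases i
      · exact h0
      · exact h1
    rw [h1, Int.cast_zero, zero_mul, add_zero]
    have h4 : (1 : ℝ) ≤ |(a 0 : ℝ)| := by exact_mod_cast Int.one_le_abs h0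
    have h5 : (1 : ℝ) ≤ H ^ (μ - 1) := Real.one_le_rpow hH (by linarith)
    calc min c 1 ≤ 1 := min_le_right _ _
      _ = 1 * 1 := (one_mul 1).symm
      _ ≤ H ^ (μ - 1) * |(a 0 : ℝ)| := by gcongr
  · have h2 := lin_of_exp z μ hμ c hc h (a 0) (a 1) h1 H hH (hb 1)
    calc min c 1 ≤ c := min_le_left _ _
      _ = H ^ (μ - 1) * (c * H ^ (-(μ - 1))) := by
          rw [mul_left_comm, ← Real.rpow_add hH0, add_neg_cancel, Real.rpow_zero, mul_one]
      _ ≤ H ^ (μ - 1) * |(a 0 : ℝ) + a 1 * z| := by gcongr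

/-- linear independence measure for `1, ζ(3), π ^ 4`, all nonzero integer vectors -/
theorem meas_zeta_pi4 : ∃ c : ℝ, 0 < c ∧
    Meas (![1, ∑' n : ℕ, 1 / ((n : ℝ) + 1) ^ 3, Real.pi ^ 4] : Fin (2 + 1) → ℝ) 2400 c := by
  obtain ⟨c₁, hc₁, h₁⟩ := Pool.Agent.ZF.Mea.pi_d
  obtain ⟨c₂, hc₂, h₂'⟩ := Pool.Agent.W170.Z3.Z_main
  have h₂ := lin_of_exp (∑' n : ℕ, 1 / ((n : ℝ) + 1) ^ 3) (542 / 100) (by norm_num) c₂ hc₂
    (fun p q hq => h₂' p q hq)
  obtain ⟨c, hc⟩ : ∃ c : ℝ, c = min (min c₁ c₂) 1 := ⟨_, rfl⟩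
  have hcc1 : c ≤ c₁ := by rw [hc]; exact (min_le_left _ _).trans (min_le_left _ _)
  have hcc2 : c ≤ c₂ := by rw [hc]; exact (min_le_left _ _).trans (min_le_right _ _)
  have hcc3 : c ≤ 1 := by rw [hc]; exact min_le_right _ _
  have hc0 : 0 < c := by rw [hc]; positivity
  refine ⟨c, hc0, ?_⟩
  intro a ha H hH hb
  have hH0 : 0 < H := by linarith
  have hval : ∑ j, (a j : ℝ) * (![1, ∑' n : ℕ, 1 / ((n : ℝ) + 1) ^ 3, Real.pi ^ 4] :
      Fin (2 + 1) → ℝ) j = a 0 + a 1 * (∑' n : ℕ, 1 / ((n : ℝ) + 1) ^ 3) + a 2 * Real.pi ^ 4 := by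
    rw [Fin.sum_univ_three]
    simp
  rw [hval]
  have key : ∀ (d V : ℝ), c ≤ d → d * H ^ (-(2400 : ℝ)) ≤ V → c ≤ H ^ (2400 : ℝ) * V := by
    intro d V hd hV
    have h2 : 0 < H ^ (2400 : ℝ) := by positivity
    have h3 : H ^ (2400 : ℝ) * H ^ (-(2400 : ℝ)) = 1 := by rw [← Real.rpow_add hH0]; simp
    calc c ≤ d := hd
      _ = H ^ (2400 : ℝ) * (d * H ^ (-(2400 : ℝ))) := by rw [mul_left_comm, h3, mul_one]
      _ ≤ H ^ (2400 : ℝ) * V := by gcongr
  by_cases h2 : a 2 = 0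
  · rw [h2, Int.cast_zero, zero_mul, add_zero]
    by_cases h1 : a 1 = 0
    · have h0 : a 0 ≠ 0 := by
        intro h0
        apply ha
        funext i
        fin_cases i
        · exact h0
        · exact h1
        · exact h2
      rw [h1, Int.cast_zero, zero_mul, add_zero]
      refine key 1 _ hcc3 ?_
      rw [one_mul]
      have h3 : H ^ (-(2400 : ℝ)) ≤ 1 := Real.rpow_le_one_of_one_le_of_nonpos hH (by norm_num)
      have h4 : (1 : ℝ) ≤ |(a 0 : ℝ)| := by exact_mod_cast Int.one_le_abs h0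
      linarith
    · refine key c₂ _ hcc2 ((?_ : _ ≤ _).trans (h₂ (a 0) (a 1) h1 H hH (hb 1)))
      refine mul_le_mul_of_nonneg_left ?_ hc₂.le
      exact Real.rpow_le_rpow_of_exponent_le hH (by norm_num)
  · refine key c₁ _ hcc1 ?_
    have h3 := h₁ (a 0) (a 1) (a 2) h2 H (hb 1) (hb 2)
    have e3 : Pool.Agent.H337R2.zr 3 = ∑' n : ℕ, 1 / ((n : ℝ) + 1) ^ 3 := rfl
    rw [e3] at h3
    rw [Real.rpow_neg hH0.le, show (2400 : ℝ) = ((2400 : ℕ) : ℝ) by norm_num, Real.rpow_natCast,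
      ← div_eq_mul_inv]
    exact h3

end Pool.Agent.TH647.NR
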